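import Pool.Agent.U643.TR.Ru
import Pool.Agent.N77.CP.Fin

/-!
# Kernels with commensurable vertex stabilizers
-/

set_option autoImplicit false

namespace Pool.Agent.U643.TR

open SimpleGraph
open Pool.Agent.Y110.FJ
open Pool.Agent.N509.TK (Sb mem_Sb Sb_le Sb_conj Sb_normal EE)
open Pool.Agent.R941.FJ (C_equiv C_le C_cyc mem_sup_normal)
open Pool.Agent.U643.GP (Kern kern_ext cyc_quot)
open Pool.Agent.N77.CP (TF Mx VCen Csd)

/-! ### torsion in groups with finite conjugacy classes -/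

section fc

variable {H : Type} [Group H]

theorem fc_fin (hfc : ∀ x : H, (Subgroup.centralizer {x}).FiniteIndex) {x : H}
    (hx : ∃ n : ℕ, 0 < n ∧ x ^ n = 1) : Finite (Subgroup.normalClosure ({x} : Set H)) := by
  obtain ⟨n, hn, h⟩ := hx
  exact Pool.Agent.N77.CP.DIE.main H x n hn h (hfc x)

theorem tor_mul (hfc : ∀ x : H, (Subgroup.centralizer {x}).FiniteIndex) {x y : H}
    (hx : ∃ n : ℕ, 0 < n ∧ x ^ n = 1) (hy : ∃ n : ℕ, 0 < n ∧ y ^ n = 1) :
    ∃ n : ℕ, 0 < n ∧ (x * y) ^ n = 1 := by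
  have h1 := fc_fin hfc hx
  have h2 := fc_fin hfc hy
  obtain ⟨A, hA⟩ : ∃ A, A = Subgroup.normalClosure ({x} : Set H) := ⟨_, rfl⟩
  obtain ⟨B, hB⟩ : ∃ B, B = Subgroup.normalClosure ({y} : Set H) := ⟨_, rfl⟩
  have hBn : B.Normal := by
    rw [hB]
    exact Subgroup.normalClosure_normal
  have hxA : x ∈ A := by
    rw [hA]
    exact Subgroup.subset_normalClosure rfl
  have hyB : y ∈ B := by
    rw [hB]
    exact Subgroup.subset_normalClosure rfl
  rw [← hA] at h1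
  rw [← hB] at h2
  have h3 : ((A ⊔ B : Subgroup H) : Set H).Finite := by
    rw [Subgroup.mul_normal]
    exact Set.Finite.mul (Set.toFinite _) (Set.toFinite _)
  have h4 : Finite ↥(A ⊔ B) := h3
  have h5 : x * y ∈ A ⊔ B :=
    mul_mem (Subgroup.mem_sup_left hxA) (Subgroup.mem_sup_right hyB)
  have h6 : IsOfFinOrder (⟨x * y, h5⟩ : ↥(A ⊔ B)) := isOfFinOrder_of_finite _
  obtain ⟨n, hn, hn1⟩ := isOfFinOrder_iff_pow_eq_one.1 h6
  exact ⟨n, hn, congrArg Subtype.val hn1⟩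

/-- the torsion subgroup -/
def Tor (hfc : ∀ x : H, (Subgroup.centralizer {x}).FiniteIndex) : Subgroup H where
  carrier := {x | ∃ n : ℕ, 0 < n ∧ x ^ n = 1}
  mul_mem' hx hy := tor_mul hfc hx hy
  one_mem' := ⟨1, one_pos, one_pow 1⟩
  inv_mem' := by
    rintro x ⟨n, hn, h⟩
    exact ⟨n, hn, by rw [inv_pow, h, inv_one]⟩

theorem Tor_normal (hfc : ∀ x : H, (Subgroup.centralizer {x}).FiniteIndex) : (Tor hfc).Normal := by
  refine ⟨?_⟩
  rintro x ⟨n, hn, h⟩ g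
  refine ⟨n, hn, ?_⟩
  rw [conj_pow, h]
  group

theorem tor_comm (hfc : ∀ x : H, (Subgroup.centralizer {x}).FiniteIndex) (x y : H) :
    ∃ n : ℕ, 0 < n ∧ (x * y * x⁻¹ * y⁻¹) ^ n = 1 := by
  have hn := Tor_normal hfc
  have h1 := Pool.Agent.N77.CP.FC.main (H ⧸ Tor hfc) ?_ ?_ x y
  · have h2 : ((x * y * x⁻¹ * y⁻¹ : H) : H ⧸ Tor hfc) = 1 := by
      rw [QuotientGroup.mk_mul, QuotientGroup.mk_mul, QuotientGroup.mk_mul, h1,
        QuotientGroup.mk_inv, QuotientGroup.mk_inv]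
      group
    exact (QuotientGroup.eq_one_iff _).1 h2
  · intro q n hn' hq
    obtain ⟨z, rfl⟩ := QuotientGroup.mk_surjective q
    have h3 : ((z ^ n : H) : H ⧸ Tor hfc) = 1 := hq
    obtain ⟨m, hm, hm1⟩ := (QuotientGroup.eq_one_iff _).1 h3
    refine (QuotientGroup.eq_one_iff z).2 ⟨n * m, Nat.mul_pos hn' hm, ?_⟩
    rw [pow_mul]
    exact hm1
  · intro q
    obtain ⟨z, rfl⟩ := QuotientGroup.mk_surjective q
    have h3 : (Subgroup.centralizer {z}).map (QuotientGroup.mk' (Tor hfc)) ≤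
        Subgroup.centralizer {(z : H ⧸ Tor hfc)} := by
      rintro _ ⟨w, hw, rfl⟩
      rw [Subgroup.mem_centralizer_singleton_iff]
      have hw' : w ∈ Subgroup.centralizer {z} := hw
      rw [Subgroup.mem_centralizer_singleton_iff] at hw'
      exact congrArg (QuotientGroup.mk' (Tor hfc)) hw'
    have h4 : ((Subgroup.centralizer {z}).map (QuotientGroup.mk' (Tor hfc))).index ≠ 0 := by
      intro h0
      have h5 := Subgroup.index_map_dvd (Subgroup.centralizer {z})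
        (QuotientGroup.mk'_surjective (Tor hfc))
      rw [h0, zero_dvd_iff] at h5
      exact (hfc z).index_ne_zero h5
    refine ⟨fun h0 => h4 ?_⟩
    have h5 := Subgroup.index_dvd_of_le h3
    rw [h0, zero_dvd_iff] at h5
    exact h5

end fc

variable {C : ∀ (G : Type) [Group G], Prop}

section

variable {G V : Type} {T : SimpleGraph V} [Group G] [MulAction G V]

/-- finite conjugacy classes, for subgroups -/
def Fc (K : Subgroup G) : Prop := ∀ x ∈ K, VCen K x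

theorem Fc.cent {K : Subgroup G} (h : Fc K) (x : K) : (Subgroup.centralizer {x}).FiniteIndex := by
  refine ⟨?_⟩
  have h6 : (Subgroup.centralizer {(x : G)}).subgroupOf K = Subgroup.centralizer {x} := by
    ext w
    rw [Subgroup.mem_subgroupOf, Subgroup.mem_centralizer_singleton_iff,
      Subgroup.mem_centralizer_singleton_iff, ← Subtype.coe_inj]
    rfl
  rw [← h6]
  exact h x x.2

/-- the torsion elements of the stabilizers in `K` -/
def Ts (K : Subgroup G) (h : ∀ v : V, Fc (Sb K v)) (v : V) : Subgroup G :=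
  (Tor (h v).cent).map (Sb K v).subtype

theorem mem_Ts {K : Subgroup G} {h : ∀ v : V, Fc (Sb K v)} {v : V} {x : G} :
    x ∈ Ts K h v ↔ x ∈ Sb K v ∧ ∃ n : ℕ, 0 < n ∧ x ^ n = 1 := by
  constructor
  · rintro ⟨y, ⟨n, hn, hy⟩, rfl⟩
    exact ⟨y.2, n, hn, congrArg Subtype.val hy⟩
  · rintro ⟨hx, n, hn, h1⟩
    exact ⟨⟨x, hx⟩, ⟨n, hn, Subtype.ext h1⟩, rfl⟩

theorem Ts_fm (K : Subgroup G) [K.Normal] (h : ∀ v : V, Fc (Sb K v)) : Fm T (Ts K h) where
  le v x hx := (mem_Ts.1 hx).1.1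
  eqv g v x hx := by
    obtain ⟨h1, n, hn, h2⟩ := mem_Ts.1 hx
    refine mem_Ts.2 ⟨Sb_conj K g v h1, n, hn, ?_⟩
    rw [conj_pow, h2]
    group
  comp u v _ x hx hv := by
    obtain ⟨h1, h2⟩ := mem_Ts.1 hx
    exact mem_Ts.2 ⟨mem_Sb.2 ⟨hv, h1.2⟩, h2⟩

theorem Sb_fm (K : Subgroup G) [K.Normal] : Fm T (Sb (V := V) K) where
  le v x hx := hx.1
  eqv g v x hx := Sb_conj K g v hx
  comp u v _ x hx hv := mem_Sb.2 ⟨hv, hx.2⟩

/-- **kernels whose stabilizers have finite conjugacy classes and finite torsion subgroups** -/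
theorem fc_L (hC : ClosedE C) (hM : ∀ (G : Type) [Group G], derivedSeries G 2 = ⊥ → C G)
    (hT : T.IsTree) (hact : ∀ (g : G) (u v : V), T.Adj u v → T.Adj (g • u) (g • v))
    (K : Subgroup G) [K.Normal] (hQ : C (G ⧸ K)) (h : ∀ v : V, Fc (Sb K v))
    (htor : ∀ v : V, {x : G | x ∈ Sb K v ∧ ∃ n : ℕ, 0 < n ∧ x ^ n = 1}.Finite) : C G := by
  -- the quotient by the group generated by the stabilizers
  have hn0 : (⨆ v : V, Sb K v).Normal := Sb_normal K
  obtain ⟨N0, hN0⟩ : ∃ N, N = ⨆ v : V, Sb K v := ⟨_, rfl⟩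
  rw [← hN0] at hn0
  have h0 : C (G ⧸ N0) := quot_Sb hC hT hact hQ N0 hN0
  -- the quotient by the group generated by the torsion
  have hn1 : (⨆ v : V, Ts K h v).Normal := (Ts_fm (T := T) K h).normal
  obtain ⟨N1, hN1⟩ : ∃ N, N = ⨆ v : V, Ts K h v := ⟨_, rfl⟩
  rw [← hN1] at hn1
  have h1 : C (G ⧸ N1) := by
    refine rule_ab hC hM hT hact (Sb_fm (T := T) K) (Ts_fm (T := T) K h) ?_ ?_ N0 N1 hN0 hN1 h0
    · intro v x hx
      exact (mem_Ts.1 hx).1
    · intro v x hx y hy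
      obtain ⟨n, hn, hn'⟩ := tor_comm (h v).cent ⟨x, hx⟩ ⟨y, hy⟩
      refine mem_Ts.2 ⟨mul_mem (mul_mem (mul_mem hx hy) (inv_mem hx)) (inv_mem hy), n, hn, ?_⟩
      exact congrArg Subtype.val hn'
  have hb : (⊥ : Subgroup G) = ⨆ _ : V, (⊥ : Subgroup G) := by
    symm
    rw [eq_bot_iff]
    exact iSup_le fun v => le_refl _
  refine C_equiv hC.base QuotientGroup.quotientBot.symm ?_
  refine rule_fin (R' := fun _ : V => (⊥ : Subgroup G)) hC hT hact (Ts_fm (T := T) K h) ?_ ?_ ?_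
    N1 ⊥ hN1 hb h1
  · refine ⟨?_, ?_, ?_⟩
    · intro v x hx
      rw [Subgroup.mem_bot.1 hx, one_smul]
    · intro g v x hx
      rw [Subgroup.mem_bot] at hx ⊢
      rw [hx]
      group
    · intro u v _ x hx _
      exact hx
  · intro v
    exact bot_le
  · intro v
    rw [Subgroup.relIndex_bot_left]
    have h2 : Finite (Ts K h v) := by
      refine ((htor v).subset ?_).to_subtype
      intro x hx
      exact mem_Ts.1 hx
    exact Nat.card_pos.ne'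

/-- **kernels with commensurable stabilizers** -/
theorem comm_L (hC : ClosedE C) (hM : ∀ (G : Type) [Group G], derivedSeries G 2 = ⊥ → C G)
    (hT : T.IsTree) (hact : ∀ (g : G) (u v : V), T.Adj u v → T.Adj (g • u) (g • v))
    (L : Subgroup G) [L.Normal] (hQ : C (G ⧸ L))
    (hfin : ∀ x y : V, T.Adj x y → (Sb L x).relIndex (Sb L y) ≠ 0) (o : V)
    (Q : Type) [Group Q] (ρ : G →* Q) (hCQ : C Q) (hρ : ∀ g : G, ρ g = 1 → VCen (Sb L o) g)
    (htor : ∀ v : V, {x : G | x ∈ Sb L v ∧ ρ x = 1 ∧ ∃ n : ℕ, 0 < n ∧ x ^ n = 1}.Finite) : C G := by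
  have hcm := Pool.Agent.N24.CM.commensurable hT.1 (fun x : V => Sb L x) hfin
  refine fc_L hC hM hT hact (L ⊓ ρ.ker) ?_ ?_ ?_
  · refine hC.base.of_injective _ ((G ⧸ L) × Q)
      (QuotientGroup.lift (L ⊓ ρ.ker) ((QuotientGroup.mk' L).prod ρ) ?_) ?_
      (hC.base.prod _ _ hQ hCQ)
    · intro x hx
      exact Prod.ext ((QuotientGroup.eq_one_iff x).2 hx.1) hx.2
    · rw [injective_iff_map_eq_one]
      intro x hx
      obtain ⟨y, rfl⟩ := QuotientGroup.mk_surjective x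
      have h2 : ((y : G) : G ⧸ L) = 1 := congrArg Prod.fst hx
      have h3 : ρ y = 1 := congrArg Prod.snd hx
      exact (QuotientGroup.eq_one_iff y).2 ⟨(QuotientGroup.eq_one_iff y).1 h2, h3⟩
  · intro v x hx
    have h1 : VCen (Sb L o) x := hρ x hx.2.2
    have h2 : VCen (Sb L v) x := Subgroup.relIndex_ne_zero_trans h1 (hcm o v)
    have h3 : Sb (L ⊓ ρ.ker) v ≤ Sb L v := fun y hy => ⟨hy.1, hy.2.1⟩
    refine Subgroup.relIndex_ne_zero_trans h2 ?_
    rw [Subgroup.relIndex_eq_one.2 h3]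
    exact one_ne_zero
  · intro v
    refine (htor v).subset ?_
    rintro x ⟨h1, h2⟩
    exact ⟨⟨h1.1, h1.2.1⟩, h1.2.2, h2⟩

/-- **kernels with commensurable virtually polycyclic stabilizers** -/
theorem poly_L (hC : ClosedE C) (hM : ∀ (G : Type) [Group G], derivedSeries G 2 = ⊥ → C G)
    (hL : ∀ m : ℕ, C (Matrix.GeneralLinearGroup (Fin m) ℚ))
    (hT : T.IsTree) (hact : ∀ (g : G) (u v : V), T.Adj u v → T.Adj (g • u) (g • v))
    (L : Subgroup G) [L.Normal] (hQ : C (G ⧸ L))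
    (hfin : ∀ x y : V, T.Adj x y → (Sb L x).relIndex (Sb L y) ≠ 0) (o : V) (P : Subgroup G)
    (hP : P ≤ Sb L o) (hPi : P.relIndex (Sb L o) ≠ 0) (hPs : Group.IsSolvable P) (hPm : Mx P)
    (htP : TF P) : C G := by
  have hcm := Pool.Agent.N24.CM.commensurable hT.1 (fun x : V => Sb L x) hfin
  have h0 : ∀ v : V, L ⊓ MulAction.stabilizer G v = Sb L v := fun v => inf_comm _ _
  have hcsd : Csd P := by
    have h1 := Pool.Agent.N77.CP.csd_stab T hT L (fun x y h => by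
      rw [h0, h0]
      exact hfin x y h) o
    rw [h0] at h1
    exact h1.of_le hP hPi
  obtain ⟨n, hn⟩ := Pool.Agent.N77.CP.exists_SL hPs
  obtain ⟨Q, _, ρ, hCQ, hρ⟩ := Pool.Agent.N77.CP.ind hC hM hL
    (Pool.Agent.N77.CP.HBS.main Pool.Agent.N77.CP.HBX.main) Pool.Agent.N77.CP.MIN.main
    (Pool.Agent.N77.CP.REP.main Pool.Agent.N77.CP.EXT.main) Pool.Agent.N77.CP.ISO.main
    (Pool.Agent.N77.CP.STEP.main Pool.Agent.N77.CP.FC.main) n G P hcsd htP hPm hPs hn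
  refine comm_L hC hM hT hact L hQ hfin o Q ρ hCQ
    (fun g hg => Pool.Agent.N77.CP.VCen.of_fin hPi (hρ g hg)) ?_
  intro v
  -- the torsion elements embed in the cosets of `P`
  have h1 : (P ⊓ Sb L v).relIndex (Sb L v) ≠ 0 := by
    rw [Subgroup.inf_relIndex_right]
    exact Subgroup.relIndex_ne_zero_trans hPi (hcm o v)
  have hfc : Fc (Sb (L ⊓ ρ.ker) v) := by
    intro x hx
    have h1 : VCen (Sb L o) x := Pool.Agent.N77.CP.VCen.of_fin hPi (hρ x hx.2.2)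
    have h2 : VCen (Sb L v) x := Subgroup.relIndex_ne_zero_trans h1 (hcm o v)
    have h3 : Sb (L ⊓ ρ.ker) v ≤ Sb L v := fun y hy => ⟨hy.1, hy.2.1⟩
    refine Subgroup.relIndex_ne_zero_trans h2 ?_
    rw [Subgroup.relIndex_eq_one.2 h3]
    exact one_ne_zero
  have h2 : Finite (Sb L v ⧸ (P ⊓ Sb L v).subgroupOf (Sb L v)) :=
    Subgroup.index_ne_zero_iff_finite.1 h1
  have h3 : Finite {x : G // x ∈ Sb L v ∧ ρ x = 1 ∧ ∃ n : ℕ, 0 < n ∧ x ^ n = 1} := by
    refine Finite.of_injective (fun x => (QuotientGroup.mk ⟨x.1, x.2.1⟩ :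
      Sb L v ⧸ (P ⊓ Sb L v).subgroupOf (Sb L v))) ?_
    rintro ⟨x, hx, hx1, hx2⟩ ⟨y, hy, hy1, hy2⟩ hxy
    have h4' : (⟨x, hx⟩ : Sb L v)⁻¹ * ⟨y, hy⟩ ∈ (P ⊓ Sb L v).subgroupOf (Sb L v) :=
      QuotientGroup.eq.1 hxy
    have h4 : x⁻¹ * y ∈ P ⊓ Sb L v := h4'
    have hx3 : x ∈ Sb (L ⊓ ρ.ker) v := ⟨hx.1, hx.2, hx1⟩
    have hy3 : y ∈ Sb (L ⊓ ρ.ker) v := ⟨hy.1, hy.2, hy1⟩
    obtain ⟨m, hm, hm1⟩ := tor_mul hfc.cent (x := ⟨x, hx3⟩⁻¹) (y := ⟨y, hy3⟩) (by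
      obtain ⟨k, hk, hk1⟩ := hx2
      refine ⟨k, hk, Subtype.ext ?_⟩
      show (x⁻¹) ^ k = 1
      rw [inv_pow, hk1, inv_one]) (by
      obtain ⟨k, hk, hk1⟩ := hy2
      exact ⟨k, hk, Subtype.ext hk1⟩)
    have hm2 : (x⁻¹ * y) ^ m = 1 := congrArg Subtype.val hm1
    have h5 : x⁻¹ * y = 1 := by
      have h6 := htP ⟨x⁻¹ * y, h4.1⟩ m hm (Subtype.ext hm2)
      exact congrArg Subtype.val h6
    exact Subtype.ext (inv_mul_eq_one.1 h5)
  exact h3

end

end Pool.Agent.U643.TR
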