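import Pool.Agent.U643.TR.Qa
import Pool.Agent.N509.TX.Sub
import Pool.Agent.N509.TK.Loc2

/-!
# Kernels with abelian or finite vertex stabilizers
-/

set_option autoImplicit false

namespace Pool.Agent.U643.TR

open SimpleGraph
open Pool.Agent.Y110.FJ
open Pool.Agent.N509.TK (Sb mem_Sb Sb_le Sb_conj Sb_normal EE)
open Pool.Agent.N509.TX (STree fg_subtree of_fg C_stab)
open Pool.Agent.R941.FJ (C_equiv C_le C_cyc mem_sup_normal)
open Pool.Agent.U643.GP (Kern kern_ext cyc_quot)

variable {C : ∀ (G : Type) [Group G], Prop}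

section

variable {G V : Type} {T : SimpleGraph V} [Group G] [MulAction G V]

/-- kernels which act freely -/
theorem free_L (hC : ClosedE C) (hT : T.IsTree)
    (hact : ∀ (g : G) (u v : V), T.Adj u v → T.Adj (g • u) (g • v)) (L : Subgroup G) [L.Normal]
    (hQ : C (G ⧸ L)) (h : ∀ v : V, ∀ x ∈ L, x • v = v → x = 1) : C G := by
  have h1 : (⊥ : Subgroup G) = ⨆ v : V, Sb L v := by
    symm
    rw [eq_bot_iff]
    refine iSup_le fun v x hx => ?_
    rw [Subgroup.mem_bot]
    exact h v x hx.2 hx.1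
  exact C_equiv hC.base QuotientGroup.quotientBot.symm (quot_Sb hC hT hact hQ ⊥ h1)

/-- kernels with abelian stabilizers -/
theorem ab_L (hC : ClosedE C) (hM : ∀ (G : Type) [Group G], derivedSeries G 2 = ⊥ → C G)
    (hT : T.IsTree) (hact : ∀ (g : G) (u v : V), T.Adj u v → T.Adj (g • u) (g • v))
    (L : Subgroup G) [L.Normal] (hQ : C (G ⧸ L))
    (h : ∀ v : V, ∀ x ∈ L, x • v = v → ∀ y ∈ L, y • v = v → x * y = y * x) : C G := by
  have hcf : Cf T L (fun _ : V => (⊥ : Subgroup G)) := by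
    refine ⟨?_, ?_⟩
    · intro g v x hx
      rw [Subgroup.mem_bot] at hx ⊢
      rw [hx]
      group
    · intro u v _ x _ _ _ hx
      exact hx
  obtain ⟨D, hD, hDL, hCD, hDv⟩ := step_ab hC hM hT hact hQ hcf (by
    intro v x hx y hy
    rw [Subgroup.mem_bot, h v x hx.2 hx.1 y hy.2 hy.1]
    group)
  exact free_L hC hT hact D hCD fun v x hx hxv => Subgroup.mem_bot.1 (hDv v (mem_Sb.2 ⟨hxv, hx⟩))

/-- kernels with stabilizers of bounded order -/
theorem bdd_L (hC : ClosedE C) (hT : T.IsTree)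
    (hact : ∀ (g : G) (u v : V), T.Adj u v → T.Adj (g • u) (g • v))
    (L : Subgroup G) [L.Normal] (hQ : C (G ⧸ L)) (k : ℕ)
    (h : ∀ v : V, Nat.card (Sb L v) ≠ 0 ∧ Nat.card (Sb L v) ≤ k) : C G := by
  have hcf : Cf T L (fun _ : V => (⊥ : Subgroup G)) := by
    refine ⟨?_, ?_⟩
    · intro g v x hx
      rw [Subgroup.mem_bot] at hx ⊢
      rw [hx]
      group
    · intro u v _ x _ _ _ hx
      exact hx
  obtain ⟨D, hD, hDL, hCD, hDv⟩ := step_fin hC hT hact hQ hcf k
    (fun v => by rw [Subgroup.relIndex_bot_left]; exact (h v).1)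
    (fun v => by rw [Subgroup.relIndex_bot_left]; exact (h v).2)
  exact free_L hC hT hact D hCD fun v x hx hxv => Subgroup.mem_bot.1 (hDv v (mem_Sb.2 ⟨hxv, hx⟩))

/-- **kernels with finite stabilizers** -/
theorem fin_L (hC : ClosedE C) (hT : T.IsTree)
    (hact : ∀ (g : G) (u v : V), T.Adj u v → T.Adj (g • u) (g • v))
    (L : Subgroup G) [L.Normal] (hQ : C (G ⧸ L)) (h : ∀ v : V, Finite (Sb L v)) : C G := by
  classical
  refine of_fg hC fun H hH => ?_
  obtain ⟨o⟩ := hT.connected.nonempty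
  obtain ⟨W, iW, T', ι, Φ, hS, ⟨w0, hw0⟩, hΦ, hor⟩ := fg_subtree (G := H) hT
    (fun g u v h => hact g u v h) hH o
  -- the orders
  let q : V → ℕ := fun v => Nat.card (Sb L v)
  have hq : ∀ (g : G) (v : V), q (g • v) = q v := by
    intro g v
    refine Nat.card_congr ?_
    refine
      { toFun := fun x => ⟨g⁻¹ * x * g, Sb_back x.2⟩
        invFun := fun x => ⟨g * x * g⁻¹, Sb_conj L g v x.2⟩
        left_inv := fun x => Subtype.ext ?_
        right_inv := fun x => Subtype.ext ?_ }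
    · show g * (g⁻¹ * x * g) * g⁻¹ = x
      group
    · show g⁻¹ * (g * x * g⁻¹) * g = x
      group
  obtain ⟨k, hk⟩ : ∃ k, k = q o + ∑ e ∈ Φ, (q e.1 + q e.2) := ⟨_, rfl⟩
  have hb : ∀ w : W, q (ι w) ≤ k := by
    have h1 : ∀ e ∈ Φ, q e.1 + q e.2 ≤ ∑ e ∈ Φ, (q e.1 + q e.2) := fun e he =>
      Finset.single_le_sum (f := fun e : V × V => q e.1 + q e.2) (fun _ _ => Nat.zero_le _) he
    intro w
    by_cases hw : w = w0
    · rw [hw, hw0, hk]
      omega
    · obtain ⟨p⟩ := hS.tree.connected.preconnected w w0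
      have h2 : ∃ z, T'.Adj w z := by
        cases p with
        | nil => exact absurd rfl hw
        | cons h p => exact ⟨_, h⟩
      obtain ⟨z, hz⟩ := h2
      obtain ⟨g, hg | hg⟩ := hor w z hz
      · have h3 := h1 _ hg
        have h4 : q ((g : H) • ι w) = q (ι w) := hq (g : G) (ι w)
        have h5 : q (g • ι w) + q (g • ι z) ≤ ∑ e ∈ Φ, (q e.1 + q e.2) := h3
        omega
      · have h3 := h1 _ hg
        have h4 : q ((g : H) • ι w) = q (ι w) := hq (g : G) (ι w)
        have h5 : q (g • ι z) + q (g • ι w) ≤ ∑ e ∈ Φ, (q e.1 + q e.2) := h3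
        omega
  have hemb : ∀ w : W, ∃ f : Sb (L.subgroupOf H) w → Sb L (ι w), Function.Injective f := by
    intro w
    refine ⟨fun x => ⟨((x : H) : G), mem_Sb.2 ⟨hS.fix.1 x.2.1, x.2.2⟩⟩, ?_⟩
    intro a b hab
    have h1 : ((a : H) : G) = ((b : H) : G) := congrArg (fun z : Sb L (ι w) => (z : G)) hab
    exact Subtype.ext (Subtype.ext h1)
  refine bdd_L hC hS.tree hS.act (L.subgroupOf H) ?_ k ?_
  · refine hC.base.of_injective _ _ (QuotientGroup.map (L.subgroupOf H) L H.subtype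
      (fun x hx => hx)) ?_ hQ
    rw [injective_iff_map_eq_one]
    intro x hx
    obtain ⟨y, rfl⟩ := QuotientGroup.mk_surjective x
    have h1 : ((y : G) : G ⧸ L) = 1 := hx
    exact (QuotientGroup.eq_one_iff y).2 ((QuotientGroup.eq_one_iff (y : G)).1 h1)
  · intro w
    obtain ⟨f, hf⟩ := hemb w
    have := h (ι w)
    have h1 : Finite (Sb (L.subgroupOf H) w) := Finite.of_injective f hf
    exact ⟨Nat.card_pos.ne', (Nat.card_le_card_of_injective f hf).trans (hb w)⟩

end

end Pool.Agent.U643.TR
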