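import Pool.Agent.U643.TR.St

/-!
# The group generated by a compatible family

If the normal subgroups `R v` of the vertex stabilizers agree on the edges then the group generated by
them meets every vertex stabilizer in `R v`.
-/

set_option autoImplicit false

namespace Pool.Agent.U643.TR

open SimpleGraph
open Pool.Agent.Y110.FJ
open Pool.Agent.N509.TK (Sb mem_Sb Sb_le Sb_conj Sb_normal EE)
open Cardinal

/-! ### free actions with many orbits -/

section free

/-- coordinates for a free action -/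
theorem free_dec {Q X : Type} [Group Q] (c : Q →* Equiv.Perm X) (hc : ∀ q i, c q i = i → q = 1) :
    ∃ (O : Type) (e : O × Q ≃ X) (p : X → O) (s : O → X), (∀ o, p (s o) = o) ∧
      (∀ i j, p i = p j → ∃ q, c q i = j) ∧ ∀ o q q', e (o, q' * q) = c q' (e (o, q)) := by
  classical
  let r : Setoid X :=
    { r := fun i j => ∃ q, c q i = j
      iseqv := by
        refine ⟨fun i => ⟨1, by simp⟩, ?_, ?_⟩
        · rintro i _ ⟨q, rfl⟩
          exact ⟨q⁻¹, by simp⟩
        · rintro i _ _ ⟨q, rfl⟩ ⟨q', rfl⟩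
          exact ⟨q' * q, by simp⟩ }
  let s : Quotient r → X := fun o => o.out
  have hs : ∀ o, Quotient.mk r (s o) = o := fun o => Quotient.out_eq o
  let F : Quotient r × Q → X := fun p => c p.2 (s p.1)
  have hF : Function.Bijective F := by
    constructor
    · rintro ⟨o, q⟩ ⟨o', q'⟩ h
      have h' : c q (s o) = c q' (s o') := h
      have h1 : o = o' := by
        rw [← hs o, ← hs o']
        refine Quotient.sound (show ∃ q, c q (s o) = s o' from ⟨q'⁻¹ * q, ?_⟩)
        rw [map_mul, Equiv.Perm.mul_apply, h', map_inv]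
        exact (c q').symm_apply_apply _
      subst h1
      have h2 : q'⁻¹ * q = 1 := by
        apply hc _ (s o)
        rw [map_mul, Equiv.Perm.mul_apply, h', map_inv]
        exact (c q').symm_apply_apply _
      have h3 : q = q' := by
        rw [inv_mul_eq_one] at h2
        exact h2.symm
      rw [h3]
    · intro i
      obtain ⟨q, hq⟩ : ∃ q, c q (s (Quotient.mk r i)) = i :=
        Quotient.exact (hs (Quotient.mk r i))
      exact ⟨(Quotient.mk r i, q), hq⟩
  refine ⟨Quotient r, Equiv.ofBijective F hF, Quotient.mk r, s, hs, ?_, ?_⟩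
  · intro i j h
    exact Quotient.exact h
  · intro o q q'
    show c (q' * q) (s o) = c q' (c q (s o))
    rw [map_mul]
    rfl

/-- two free actions with as many orbits as points are conjugate -/
theorem free_conj_inf {Q X : Type} [Group Q] (a b : Q →* Equiv.Perm X)
    (ha : ∀ q i, a q i = i → q = 1) (hb : ∀ q i, b q i = i → q = 1)
    (ha' : ∃ s : X → X, ∀ i j q, a q (s i) = s j → i = j)
    (hb' : ∃ s : X → X, ∀ i j q, b q (s i) = s j → i = j) :
    ∃ σ : Equiv.Perm X, ∀ q, b q = σ * a q * σ⁻¹ := by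
  have key : ∀ c : Q →* Equiv.Perm X, (∀ q i, c q i = i → q = 1) →
      (∃ s : X → X, ∀ i j q, c q (s i) = s j → i = j) →
      ∃ e : X × Q ≃ X, ∀ o q q', e (o, q' * q) = c q' (e (o, q)) := by
    intro c hc hc'
    obtain ⟨O, e, p, s, hps, hp, he⟩ := free_dec c hc
    obtain ⟨t, ht⟩ := hc'
    have h1 : Function.Injective s := fun o o' h => by rw [← hps o, h, hps]
    have h2 : Function.Injective (fun i => p (t i)) := by
      intro i j h
      obtain ⟨q, hq⟩ := hp _ _ h
      exact ht i j q hq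
    obtain ⟨ε⟩ := Function.Embedding.antisymm ⟨_, h2⟩ ⟨_, h1⟩
    refine ⟨(ε.prodCongr (Equiv.refl Q)).trans e, ?_⟩
    intro o q q'
    exact he (ε o) q q'
  obtain ⟨e, he⟩ := key a ha ha'
  obtain ⟨e', he'⟩ := key b hb hb'
  let σ : X ≃ X := e.symm.trans e'
  have hσ : ∀ o q, σ (e (o, q)) = e' (o, q) := by
    intro o q
    show e' (e.symm (e (o, q))) = _
    rw [e.symm_apply_apply]
  refine ⟨σ, fun q => ?_⟩
  rw [eq_mul_inv_iff_mul_eq]
  apply Equiv.ext
  intro x
  obtain ⟨⟨o, q'⟩, rfl⟩ := e.surjective x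
  show b q (σ (e (o, q'))) = σ (a q (e (o, q')))
  rw [hσ, ← he, hσ, ← he']

/-- existence of free actions with many orbits -/
theorem free_exists_inf {Q X : Type} [Group Q] [Infinite X] (h : #Q ≤ #X) :
    ∃ a : Q →* Equiv.Perm X, (∀ q i, a q i = i → q = 1) ∧
      ∃ s : X → X, ∀ i j q, a q (s i) = s j → i = j := by
  have h1 : #(X × Q) = #X := by
    rw [Cardinal.mk_prod, Cardinal.lift_id, Cardinal.lift_id]
    exact Cardinal.mul_eq_left (Cardinal.aleph0_le_mk X) h (Cardinal.mk_ne_zero Q)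
  obtain ⟨e⟩ := Cardinal.eq.1 h1
  refine ⟨MonoidHom.mk' (fun q => e.symm.trans (((Equiv.refl X).prodCongr
    (Equiv.mulLeft q)).trans e)) ?_, ?_, ?_⟩
  · intro q q'
    apply Equiv.ext
    intro x
    obtain ⟨⟨j, y⟩, rfl⟩ := e.surjective x
    show e (((Equiv.refl X).prodCongr (Equiv.mulLeft (q * q'))) (e.symm (e (j, y)))) =
      e (((Equiv.refl X).prodCongr (Equiv.mulLeft q)) (e.symm
        (e (((Equiv.refl X).prodCongr (Equiv.mulLeft q')) (e.symm (e (j, y)))))))
    rw [e.symm_apply_apply, e.symm_apply_apply]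
    show e (j, q * q' * y) = e (j, q * (q' * y))
    rw [mul_assoc]
  · intro q x h
    obtain ⟨⟨j, y⟩, rfl⟩ := e.surjective x
    have h2 : e (((Equiv.refl X).prodCongr (Equiv.mulLeft q)) (e.symm (e (j, y)))) =
      e (j, y) := h
    rw [e.symm_apply_apply] at h2
    have h3 : (j, q * y) = (j, y) := e.injective h2
    exact mul_eq_right.1 (congrArg Prod.snd h3)
  · refine ⟨fun i => e (i, 1), ?_⟩
    intro i j q h
    have h2 : e (((Equiv.refl X).prodCongr (Equiv.mulLeft q)) (e.symm (e (i, 1)))) =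
      e (j, 1) := h
    rw [e.symm_apply_apply] at h2
    have h3 : (i, q * 1) = (j, 1) := e.injective h2
    exact congrArg Prod.fst h3

variable {G : Type} [Group G]

/-- `f` is an action of `A` on `X` with kernel `R`, free for `A / R` and with many orbits -/
def Fi (X : Type) (A R : Subgroup G) (f : G → Equiv.Perm X) : Prop :=
  PH A f ∧ (∀ x ∈ A, x ∈ R → f x = 1) ∧ (∀ x ∈ A, ∀ i, f x i = i → x ∈ R) ∧
    ∃ s : X → X, ∀ i j, ∀ x ∈ A, f x (s i) = s j → i = j

variable {X : Type}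

theorem Fi.mono {A B R : Subgroup G} {f : G → Equiv.Perm X} (h : Fi X A R f)
    (hB : B ≤ A) : Fi X B R f := by
  obtain ⟨h1, h2, h3, s, h4⟩ := h
  exact ⟨h1.mono hB, fun x hx => h2 x (hB hx), fun x hx => h3 x (hB hx), s,
    fun i j x hx => h4 i j x (hB hx)⟩

theorem Fi.conj {A R : Subgroup G} {f : G → Equiv.Perm X} (h : Fi X A R f)
    (w : Equiv.Perm X) : Fi X A R (fun x => w * f x * w⁻¹) := by
  obtain ⟨h1, h2, h3, s, h4⟩ := h
  refine ⟨?_, ?_, ?_, fun i => w (s i), ?_⟩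
  · intro x hx y hy
    show w * f (x * y) * w⁻¹ = w * f x * w⁻¹ * (w * f y * w⁻¹)
    rw [h1 x hx y hy]
    group
  · intro x hx hxR
    show w * f x * w⁻¹ = 1
    rw [h2 x hx hxR]
    group
  · intro x hx i hi
    have h5 : w (f x (w⁻¹ i)) = i := hi
    refine h3 x hx (w⁻¹ i) ?_
    have h6 := congrArg (w⁻¹ : Equiv.Perm X) h5
    rwa [show (w⁻¹ : Equiv.Perm X) (w (f x (w⁻¹ i))) = f x (w⁻¹ i) from
      w.symm_apply_apply _] at h6
  · intro i j x hx hij
    have h5 : w (f x (w⁻¹ (w (s i)))) = w (s j) := hij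
    rw [show (w⁻¹ : Equiv.Perm X) (w (s i)) = s i from w.symm_apply_apply _] at h5
    exact h4 i j x hx (w.injective h5)

/-- the quotient representation -/
theorem Fi.quot {A R : Subgroup G} {f : G → Equiv.Perm X} (h : Fi X A R f)
    [(R.subgroupOf A).Normal] : ∃ a : A ⧸ R.subgroupOf A →* Equiv.Perm X,
      (∀ x : A, a (QuotientGroup.mk x) = f x) ∧ (∀ q i, a q i = i → q = 1) ∧
      ∃ s : X → X, ∀ i j q, a q (s i) = s j → i = j := by
  obtain ⟨h1, h2, h3, s, h4⟩ := h
  refine ⟨QuotientGroup.lift _ h1.hom fun x hx => h2 x x.2 hx, fun x => rfl, ?_, s, ?_⟩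
  · intro q i hq
    obtain ⟨x, rfl⟩ := QuotientGroup.mk_surjective q
    exact (QuotientGroup.eq_one_iff _).2 (h3 x x.2 i hq)
  · intro i j q hq
    obtain ⟨x, rfl⟩ := QuotientGroup.mk_surjective q
    exact h4 i j x x.2 hq

theorem Fi.exists_conj {A R : Subgroup G} {f f' : G → Equiv.Perm X} (h : Fi X A R f)
    (h' : Fi X A R f') (hn : (R.subgroupOf A).Normal) :
    ∃ σ : Equiv.Perm X, ∀ x ∈ A, f' x = σ * f x * σ⁻¹ := by
  obtain ⟨a, ha, ha1, ha2⟩ := h.quot
  obtain ⟨b, hb, hb1, hb2⟩ := h'.quot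
  obtain ⟨σ, hσ⟩ := free_conj_inf a b ha1 hb1 ha2 hb2
  refine ⟨σ, fun x hx => ?_⟩
  have h1 := hσ (QuotientGroup.mk ⟨x, hx⟩)
  rwa [ha, hb] at h1

open Classical in
theorem Fi.exists (A R : Subgroup G) (hn : (R.subgroupOf A).Normal) [Infinite X]
    (hX : #G ≤ #X) : ∃ f : G → Equiv.Perm X, Fi X A R f := by
  have h0 : #(A ⧸ R.subgroupOf A) ≤ #X :=
    (Cardinal.mk_le_of_surjective QuotientGroup.mk_surjective).trans
      ((Cardinal.mk_le_of_injective Subtype.val_injective).trans hX)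
  obtain ⟨a, ha, s, hs⟩ := free_exists_inf h0
  refine ⟨fun x => if h : x ∈ A then a (QuotientGroup.mk ⟨x, h⟩) else 1, ?_, ?_, ?_, s, ?_⟩
  · intro x hx y hy
    show (if h : x * y ∈ A then a (QuotientGroup.mk ⟨x * y, h⟩) else 1) = _
    rw [dif_pos (mul_mem hx hy)]
    show _ = (if h : x ∈ A then a (QuotientGroup.mk ⟨x, h⟩) else 1) *
      (if h : y ∈ A then a (QuotientGroup.mk ⟨y, h⟩) else 1)
    rw [dif_pos hx, dif_pos hy, ← map_mul]
    rfl
  · intro x hx hxR
    show (if h : x ∈ A then a (QuotientGroup.mk ⟨x, h⟩) else 1) = 1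
    rw [dif_pos hx, (QuotientGroup.eq_one_iff (⟨x, hx⟩ : A)).2 hxR, map_one]
  · intro x hx i hi
    have h1 : (if h : x ∈ A then a (QuotientGroup.mk ⟨x, h⟩) else 1) i = i := hi
    rw [dif_pos hx] at h1
    exact (QuotientGroup.eq_one_iff (⟨x, hx⟩ : A)).1 (ha _ i h1)
  · intro i j x hx hij
    have h1 : (if h : x ∈ A then a (QuotientGroup.mk ⟨x, h⟩) else 1) (s i) = s j := hij
    rw [dif_pos hx] at h1
    exact hs i j _ h1

end free

section fam

variable {G V : Type} {T : SimpleGraph V} [Group G] [MulAction G V]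

/-- the system of the free actions with many orbits -/
theorem isys_inf {L : Subgroup G} {R : V → Subgroup G} [L.Normal] (h : Cf T L R) {X : Type}
    [Infinite X] (hX : #G ≤ #X) :
    ISys (W := Equiv.Perm X) T L (fun v f => Fi X (Sb L v) (R v) f) where
  hom v f hf := hf.1
  ext v u hvu f hf := by
    obtain ⟨f1, hf1⟩ := Fi.exists (Sb L v) (R v) (h.normal v) hX
    have h1 : Fi X (Sb L v ⊓ Sb L u) (R v) f1 := hf1.mono inf_le_left
    have h2 : Fi X (Sb L v ⊓ Sb L u) (R v) f := by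
      obtain ⟨g1, g2, g3, s, g4⟩ := hf
      refine ⟨g1.mono inf_le_right, ?_, ?_, s, ?_⟩
      · intro x hx hxR
        exact g2 x hx.2 (h.comp v u hvu x hx.1.2 hx.1.1 hx.2.1 hxR)
      · intro x hx i hxi
        exact h.comp u v hvu.symm x hx.1.2 hx.2.1 hx.1.1 (g3 x hx.2 i hxi)
      · intro i j x hx
        exact g4 i j x hx.2
    have hn : ((R v).subgroupOf (Sb L v ⊓ Sb L u)).Normal := by
      refine ⟨fun n hn g => ?_⟩
      rw [Subgroup.mem_subgroupOf] at hn ⊢
      have h3 := h.eqv (g : G) v n hn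
      have h4 : (g : G) • v = v := g.2.1.1
      rw [h4] at h3
      exact h3
    obtain ⟨σ, hσ⟩ := h1.exists_conj h2 hn
    refine ⟨fun x => σ * f1 x * σ⁻¹, hf1.conj σ, ?_⟩
    intro x hx hxu
    exact (hσ x ⟨hx, hxu⟩).symm
  eqv g v f hf := by
    obtain ⟨h1, h2, h3, s, h4⟩ := hf
    refine ⟨phom_conj g h1, fun x hx hxR => ?_, fun x hx i hxi => ?_, s, ?_⟩
    · exact h2 _ (Sb_back hx) (h.back hxR)
    · have h5 := h.eqv g v _ (h3 _ (Sb_back hx) i hxi)
      have h6 : g * (g⁻¹ * x * g) * g⁻¹ = x := by group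
      rwa [h6] at h5
    · intro i j x hx
      exact h4 i j _ (Sb_back hx)
  inn w v f hf := hf.conj w
  con v f f' hf hff' := by
    obtain ⟨h1, h2, h3, s, h4⟩ := hf
    refine ⟨?_, ?_, ?_, s, ?_⟩
    · intro x hx y hy
      rw [hff' x hx, hff' y hy, hff' _ (mul_mem hx hy)]
      exact h1 x hx y hy
    · intro x hx hxR
      rw [hff' x hx]
      exact h2 x hx hxR
    · intro x hx i hxi
      rw [hff' x hx] at hxi
      exact h3 x hx i hxi
    · intro i j x hx hxi
      rw [hff' x hx] at hxi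
      exact h4 i j x hx hxi

/-- an equivariant family of subgroups of the stabilizers which agree on the edges -/
structure Fm (T : SimpleGraph V) (R : V → Subgroup G) : Prop where
  le : ∀ v, ∀ x ∈ R v, x • v = v
  eqv : ∀ (g : G) (v : V), ∀ x ∈ R v, g * x * g⁻¹ ∈ R (g • v)
  comp : ∀ u v : V, T.Adj u v → ∀ x ∈ R u, x • v = v → x ∈ R v

variable {R : V → Subgroup G}

theorem Fm.cf (h : Fm T R) (L : Subgroup G) : Cf T L R :=
  ⟨h.eqv, fun u v huv x _ _ hv hx => h.comp u v huv x hx hv⟩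

theorem Fm.normal (h : Fm T R) : (⨆ v, R v).Normal := by
  refine ⟨fun n hn g => ?_⟩
  have h1 : (⨆ v, R v) ≤ (⨆ v, R v).comap (MulAut.conj g).toMonoidHom := by
    refine iSup_le fun v x hx => ?_
    exact le_iSup R (g • v) (h.eqv g v x hx)
  exact h1 hn

/-- **the group generated by the family meets the stabilizers in the family** -/
theorem Fm.meet (h : Fm T R) (hT : T.IsTree)
    (hact : ∀ (g : G) (u v : V), T.Adj u v → T.Adj (g • u) (g • v)) {v : V} {x : G}
    (hx : x ∈ ⨆ v, R v) (hv : x • v = v) : x ∈ R v := by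
  have hX : #G ≤ #(ℕ × G) :=
    Cardinal.mk_le_of_injective (f := fun g : G => ((0 : ℕ), g)) fun a b hab => congrArg Prod.snd hab
  have h𝒢 := isys_inf (h.cf ⊤) (X := ℕ × G) hX
  obtain ⟨f, hf⟩ := Fi.exists (X := ℕ × G) (Sb (⊤ : Subgroup G) v) (R v) ((h.cf ⊤).normal v) hX
  obtain ⟨φ, hφ, hg, -⟩ := h𝒢.exists_hom hT hact v f hf
  -- the kernel
  let K : Subgroup G :=
    { carrier := {x | x ∈ (⨆ v : V, Sb ⊤ v) ∧ φ x = 1}
      mul_mem' := by
        rintro a b ⟨ha, ha'⟩ ⟨hb, hb'⟩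
        refine ⟨mul_mem ha hb, ?_⟩
        rw [hφ a ha b hb, ha', hb', one_mul]
      one_mem' := ⟨one_mem _, hφ.one⟩
      inv_mem' := by
        rintro a ⟨ha, ha'⟩
        refine ⟨inv_mem ha, ?_⟩
        rw [hφ.inv ha, ha', inv_one] }
  have h1 : (⨆ v, R v) ≤ K := by
    refine iSup_le fun u y hy => ?_
    have hyu : y ∈ Sb (⊤ : Subgroup G) u := mem_Sb.2 ⟨h.le u y hy, Subgroup.mem_top y⟩
    exact ⟨le_iSup (Sb (⊤ : Subgroup G)) u hyu, (hg u).2.1 y hyu hy⟩
  have h2 : φ x = 1 := (h1 hx).2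
  refine (hg v).2.2.1 x (mem_Sb.2 ⟨hv, Subgroup.mem_top x⟩) (0, 1) ?_
  rw [h2]
  rfl

end fam

end Pool.Agent.U643.TR
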