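import Pool.Agent.N509.TK.Hol

/-!
# Homomorphisms of groups generated by vertex stabilizers

`𝒢 v` is a set of good homomorphisms from the stabilizer `Sb L v` to a group `W`. If the good
homomorphisms can be extended along the edges, then they extend, up to inner automorphisms of `W`, to the
group generated by the stabilizers.
-/

set_option autoImplicit false

namespace Pool.Agent.U643.TR

open SimpleGraph
open Pool.Agent.N509.TK (Sb mem_Sb Sb_le Sb_conj Sb_normal Tq Tv Tv.exists Tq.of_Sb)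
open Pool.Agent.N24.TR (gam gam_mul gam_self gam_eq wp wp_nil wp_cons shift)

section ph

variable {G W : Type} [Group G] [Group W]

/-- `f` is a homomorphism on the subgroup `A` -/
def PH (A : Subgroup G) (f : G → W) : Prop := ∀ x ∈ A, ∀ y ∈ A, f (x * y) = f x * f y

theorem PH.mono {A B : Subgroup G} {f : G → W} (h : PH A f) (hB : B ≤ A) : PH B f :=
  fun x hx y hy => h x (hB hx) y (hB hy)

theorem PH.one {A : Subgroup G} {f : G → W} (h : PH A f) : f 1 = 1 := by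
  have h1 := h 1 (one_mem _) 1 (one_mem _)
  rw [one_mul] at h1
  exact left_eq_mul.1 h1

theorem PH.inv {A : Subgroup G} {f : G → W} (h : PH A f) {x : G} (hx : x ∈ A) :
    f x⁻¹ = (f x)⁻¹ := by
  have h1 := h x hx x⁻¹ (inv_mem hx)
  rw [mul_inv_cancel, h.one] at h1
  exact (inv_eq_of_mul_eq_one_right h1.symm).symm

/-- the homomorphism -/
def PH.hom {A : Subgroup G} {f : G → W} (h : PH A f) : A →* W where
  toFun x := f x
  map_one' := h.one
  map_mul' x y := h x x.2 y y.2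

end ph

section fam

variable {G V W : Type} {T : SimpleGraph V} [Group G] [Group W] {R : V → Subgroup G}

/-- the extension property along the edges -/
structure Sys (T : SimpleGraph V) (R : V → Subgroup G) (𝒢 : V → (G → W) → Prop) : Prop where
  hom : ∀ v f, 𝒢 v f → PH (R v) f
  ext : ∀ v u, T.Adj v u → ∀ f, 𝒢 u f → ∃ f', 𝒢 v f' ∧ ∀ x ∈ R v, x ∈ R u → f' x = f x

variable {𝒢 : V → (G → W) → Prop}

/-- the homomorphism at the end of a walk -/
noncomputable def ch (hE : Sys T R 𝒢) {o : V} (f0 : {f : G → W // 𝒢 o f}) :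
    ∀ {v : V}, T.Walk v o → {f : G → W // 𝒢 v f}
  | _, .nil => f0
  | v, .cons (v := u) h p =>
    ⟨Classical.choose (hE.ext v u h (ch hE f0 p).1 (ch hE f0 p).2),
      (Classical.choose_spec (hE.ext v u h (ch hE f0 p).1 (ch hE f0 p).2)).1⟩

theorem ch_cons (hE : Sys T R 𝒢) {o : V} (f0 : {f : G → W // 𝒢 o f}) {u v : V}
    (h : T.Adj v u) (p : T.Walk u o) :
    ∀ x ∈ R v, x ∈ R u → (ch hE f0 (.cons h p)).1 x = (ch hE f0 p).1 x :=
  (Classical.choose_spec (hE.ext v u h (ch hE f0 p).1 (ch hE f0 p).2)).2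

/-- a compatible family -/
theorem exists_fam (hT : T.IsTree) (hE : Sys T R 𝒢) (o : V) (f0 : G → W) (hf0 : 𝒢 o f0) :
    ∃ χ : V → G → W, (∀ v, 𝒢 v (χ v)) ∧ χ o = f0 ∧
      ∀ u v, T.Adj u v → ∀ x ∈ R u, x ∈ R v → χ u x = χ v x := by
  classical
  have hpath : ∀ v, ∃ p : T.Walk v o, p.IsPath := fun v => by
    obtain ⟨p, hp, -⟩ := hT.existsUnique_path v o
    exact ⟨p, hp⟩
  choose P hP using hpath
  have huniq : ∀ v (q : T.Walk v o), q.IsPath → q = P v := fun v q hq =>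
    (hT.existsUnique_path v o).unique hq (hP v)
  refine ⟨fun v => (ch hE ⟨f0, hf0⟩ (P v)).1, fun v => (ch hE ⟨f0, hf0⟩ (P v)).2, ?_, ?_⟩
  · have h1 : (Walk.nil : T.Walk o o) = P o := huniq o _ Walk.IsPath.nil
    show (ch hE ⟨f0, hf0⟩ (P o)).1 = f0
    rw [← h1]
    rfl
  · have key : ∀ u v, T.Adj u v → v ∉ (P u).support → ∀ x ∈ R u, x ∈ R v →
        (ch hE ⟨f0, hf0⟩ (P v)).1 x = (ch hE ⟨f0, hf0⟩ (P u)).1 x := by
      intro u v huv hv x hxu hxv
      have h1 : (Walk.cons huv.symm (P u)).IsPath := (Walk.cons_isPath_iff _ _).2 ⟨hP u, hv⟩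
      rw [← huniq v _ h1]
      exact ch_cons hE _ huv.symm (P u) x hxv hxu
    intro u v huv x hxu hxv
    by_cases hv : v ∈ (P u).support
    · have hu : u ∉ (P v).support := by
        intro hu
        -- the path from `u` starts with `v`
        have hstep : ∀ a b : V, T.Adj a b → b ∈ (P a).support → ∃ q : T.Walk b o, a ∉ q.support := by
          intro a b hab hb
          refine ⟨(P a).dropUntil b hb, fun h => ?_⟩
          have h3 := (Walk.take_spec (P a) hb)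
          have h4 : (P a).support.Nodup := (hP a).support_nodup
          rw [← h3, Walk.support_append] at h4
          have h5 : a ∈ ((P a).takeUntil b hb).support := Walk.start_mem_support _
          have h6 : a ∈ ((P a).dropUntil b hb).support.tail := by
            rw [← Walk.cons_tail_support, List.mem_cons] at h
            exact h.resolve_left hab.ne
          exact (List.nodup_append.1 h4).2.2 a h5 a h6 rfl
        obtain ⟨q, hq⟩ := hstep u v huv hv
        have h3 : q.bypass = P v := huniq v _ q.bypass_isPath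
        apply hq
        apply q.support_bypass_subset_support
        rw [h3]
        exact hu
      exact key v u huv.symm hu x hxv hxu
    · exact (key u v huv hv x hxu hxv).symm

end fam

section gauge

variable {G V W : Type} {T : SimpleGraph V} [Group G] [Group W] [MulAction G V] {L : Subgroup G}
  {S : Set V}

/-- the data: representatives and a compatible family -/
structure Gd (T : SimpleGraph V) (L : Subgroup G) (S : Set V) (r : V → V) (s : V → G)
    (χ : V → G → W) : Prop where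
  tq : Tq T (⨆ v : V, Sb L v) S
  rS : ∀ v, r v ∈ S
  sH : ∀ v, s v ∈ ⨆ v : V, Sb L v
  eq : ∀ v, v = s v • r v
  hom : ∀ v, PH (Sb L v) (χ v)
  comp : ∀ u v, T.Adj u v → ∀ x ∈ Sb L u, x ∈ Sb L v → χ u x = χ v x

variable {r : V → V} {s : V → G} {χ : V → G → W}

theorem Gd.ex (L : Subgroup G) (χ : V → G → W) (hχ : ∀ v, PH (Sb L v) (χ v))
    (hc : ∀ u v, T.Adj u v → ∀ x ∈ Sb L u, x ∈ Sb L v → χ u x = χ v x) {S : Set V}
    (hS : Tq T (⨆ v : V, Sb L v) S) :
    ∃ (r : V → V) (s : V → G), Gd T L S r s χ := by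
  choose s hs r hr heq using hS.cover
  exact ⟨r, s, hS, hr, hs, heq, hχ, hc⟩

variable (hd : Gd T L S r s χ)

include hd

theorem Gd.inv_s (v : V) : (s v)⁻¹ • v = r v := inv_smul_eq_iff.2 (hd.eq v)

theorem Gd.r_smul {g : G} (hg : g ∈ ⨆ v : V, Sb L v) (v : V) : r (g • v) = r v := by
  refine hd.tq.trans ((s v)⁻¹ * g⁻¹ * s (g • v)) ?_ _ (hd.rS _) _ (hd.rS _) ?_
  · exact mul_mem (mul_mem (inv_mem (hd.sH v)) (inv_mem hg)) (hd.sH _)
  · rw [mul_smul, ← hd.eq (g • v), mul_smul, inv_smul_smul, hd.inv_s]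

omit hd in
/-- the cocycle -/
def mm (s : V → G) (g : G) (v : V) : G := (s (g • v))⁻¹ * g * s v

theorem Gd.mm_mem {g : G} (hg : g ∈ ⨆ v : V, Sb L v) (v : V) : mm s g v ∈ Sb L (r v) := by
  refine mem_Sb.2 ⟨?_, Sb_le L (mul_mem (mul_mem (inv_mem (hd.sH _)) hg) (hd.sH v))⟩
  show ((s (g • v))⁻¹ * g * s v) • r v = r v
  rw [mul_smul, ← hd.eq v, mul_smul, hd.inv_s, hd.r_smul hg]

omit hd in
theorem mm_mul (g h : G) (v : V) : mm s (g * h) v = mm s g (h • v) * mm s h v := by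
  unfold mm
  rw [mul_smul]
  group

/-- decompositions along an edge -/
theorem Gd.dec {u v : V} (hact : ∀ (g : G) (u v : V), T.Adj u v → T.Adj (g • u) (g • v))
    (h : T.Adj u v) : T.Adj (r u) (r v) ∧
    ∃ k ∈ Sb L (r u), ∃ l ∈ Sb L (r v), (s u)⁻¹ * s v = k * l := by
  have h1 := hact (s u)⁻¹ _ _ h
  rw [hd.inv_s] at h1
  obtain ⟨w, hw, h3, k, hk, hku, hkw⟩ := hd.tq.max _ (hd.rS u) _ h1
  have h4 : w = r v := by
    refine hd.tq.trans ((s v)⁻¹ * s u * k) (mul_mem (mul_mem (inv_mem (hd.sH v)) (hd.sH u)) hk) w hw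
      _ (hd.rS v) ?_
    rw [mul_smul, hkw, mul_smul, smul_inv_smul, hd.inv_s]
  subst h4
  refine ⟨h3, k, mem_Sb.2 ⟨hku, Sb_le L hk⟩, k⁻¹ * ((s u)⁻¹ * s v), mem_Sb.2 ⟨?_, ?_⟩, ?_⟩
  · rw [mul_smul, mul_smul, ← hd.eq v, ← hkw, inv_smul_smul]
  · exact L.mul_mem (L.inv_mem (Sb_le L hk)) (L.mul_mem (L.inv_mem (Sb_le L (hd.sH u)))
      (Sb_le L (hd.sH v)))
  · rw [mul_inv_cancel_left]

theorem Gd.dec_unique {u v : V} (h : T.Adj (r u) (r v)) {k k' l l' : G} (hk : k ∈ Sb L (r u))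
    (hk' : k' ∈ Sb L (r u)) (hl : l ∈ Sb L (r v)) (hl' : l' ∈ Sb L (r v)) (heq : k * l = k' * l') :
    χ (r u) k * χ (r v) l = χ (r u) k' * χ (r v) l' := by
  have h1 : k'⁻¹ * k = l' * l⁻¹ := by
    rw [inv_mul_eq_iff_eq_mul, ← mul_assoc, ← heq, mul_inv_cancel_right]
  have h2 : k'⁻¹ * k ∈ Sb L (r u) := mul_mem (inv_mem hk') hk
  have h3 : k'⁻¹ * k ∈ Sb L (r v) := by
    rw [h1]
    exact mul_mem hl' (inv_mem hl)
  have h4 := hd.comp _ _ h _ h2 h3
  rw [hd.hom _ _ (inv_mem hk') _ hk, (hd.hom _).inv hk', h1, hd.hom _ _ hl' _ (inv_mem hl),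
    (hd.hom _).inv hl] at h4
  rw [inv_mul_eq_iff_eq_mul] at h4
  rw [h4, mul_assoc, mul_assoc, inv_mul_cancel, mul_one]

omit hd in
open Classical in
/-- the labels of the edges -/
noncomputable def dl (L : Subgroup G) (r : V → V) (s : V → G)
    (χ : V → G → W) (u v : V) : W :=
  if h : ∃ k ∈ Sb L (r u), ∃ l ∈ Sb L (r v), (s u)⁻¹ * s v = k * l then
    χ (r u) (Classical.choose h) *
      χ (r v) (Classical.choose (Classical.choose_spec h).2)
  else 1

theorem Gd.dl_eq {u v : V} (h : T.Adj (r u) (r v)) {k l : G} (hk : k ∈ Sb L (r u))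
    (hl : l ∈ Sb L (r v)) (heq : (s u)⁻¹ * s v = k * l) : dl L r s χ u v = χ (r u) k * χ (r v) l := by
  have hex : ∃ k ∈ Sb L (r u), ∃ l ∈ Sb L (r v), (s u)⁻¹ * s v = k * l := ⟨k, hk, l, hl, heq⟩
  rw [dl, dif_pos hex]
  exact hd.dec_unique h (Classical.choose_spec hex).1 hk
    (Classical.choose_spec (Classical.choose_spec hex).2).1 hl
    ((Classical.choose_spec (Classical.choose_spec hex).2).2.symm.trans heq)

theorem Gd.dl_inv (hact : ∀ (g : G) (u v : V), T.Adj u v → T.Adj (g • u) (g • v)) (u v : V)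
    (h : T.Adj u v) : dl L r s χ u v * dl L r s χ v u = 1 := by
  obtain ⟨h1, k, hk, l, hl, heq⟩ := hd.dec hact h
  rw [hd.dl_eq h1 hk hl heq, hd.dl_eq (k := l⁻¹) (l := k⁻¹) h1.symm (inv_mem hl) (inv_mem hk) ?_,
    (hd.hom _).inv hk, (hd.hom _).inv hl]
  · rw [mul_assoc, mul_inv_cancel_left, mul_inv_cancel]
  · rw [← mul_inv_rev, ← heq]
    group

/-- the transformation of the labels -/
theorem Gd.dl_smul (hact : ∀ (g : G) (u v : V), T.Adj u v → T.Adj (g • u) (g • v)) {g : G}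
    (hg : g ∈ ⨆ v : V, Sb L v) (u v : V) (h : T.Adj u v) :
    dl L r s χ (g • u) (g • v) =
      χ (r u) (mm s g u) * dl L r s χ u v * (χ (r v) (mm s g v))⁻¹ := by
  obtain ⟨h1, k, hk, l, hl, heq⟩ := hd.dec hact h
  have hu := hd.mm_mem hg u
  have hv := hd.mm_mem hg v
  have hru := hd.r_smul hg u
  have hrv := hd.r_smul hg v
  have h2 : (s (g • u))⁻¹ * s (g • v) = (mm s g u * k) * (l * (mm s g v)⁻¹) := by
    have h3 : k * l = (s u)⁻¹ * s v := heq.symm
    have h4 : (mm s g u * k) * (l * (mm s g v)⁻¹) = mm s g u * (k * l) * (mm s g v)⁻¹ := by group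
    rw [h4, h3]
    unfold mm
    group
  rw [hd.dl_eq (u := g • u) (v := g • v) (k := mm s g u * k) (l := l * (mm s g v)⁻¹) ?_ ?_ ?_ h2]
  · rw [hru, hrv, hd.dl_eq h1 hk hl heq, hd.hom _ _ hu _ hk, hd.hom _ _ hl _ (inv_mem hv),
      (hd.hom _).inv hv]
    simp only [mul_assoc]
  · rw [hru, hrv]
    exact h1
  · rw [hru]
    exact mul_mem hu hk
  · rw [hrv]
    exact mul_mem hl (inv_mem hv)

theorem Gd.gam_smul (hT : T.IsTree)
    (hact : ∀ (g : G) (u v : V), T.Adj u v → T.Adj (g • u) (g • v)) {g : G}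
    (hg : g ∈ ⨆ v : V, Sb L v) (u v : V) :
    gam hT (dl L r s χ) (g • u) (g • v) =
      χ (r u) (mm s g u) * gam hT (dl L r s χ) u v * (χ (r v) (mm s g v))⁻¹ := by
  obtain ⟨p⟩ := hT.connected.preconnected u v
  have h0 : gam hT (dl L r s χ) (g • u) (g • v) = wp (dl L r s χ) (p.map (shift hact g)) :=
    gam_eq hT _ (hd.dl_inv hact) (p.map (shift hact g))
  rw [gam_eq hT _ (hd.dl_inv hact) p, h0]
  clear h0
  induction p with
  | nil =>
    show (1 : W) = _
    rw [wp_nil, mul_one, mul_inv_cancel]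
  | @cons u w v h p ih =>
    rw [Walk.map_cons, wp_cons, wp_cons, ih]
    show dl L r s χ (g • u) (g • w) * _ = _
    rw [hd.dl_smul hact hg u w h]
    simp only [mul_assoc]
    rw [inv_mul_cancel_left]

/-- **the homomorphism** -/
theorem Gd.main (hT : T.IsTree)
    (hact : ∀ (g : G) (u v : V), T.Adj u v → T.Adj (g • u) (g • v)) :
    ∃ φ : G → W, PH (⨆ v : V, Sb L v) φ ∧
      ∀ v, ∃ γ : W, ∀ x ∈ Sb L v, φ x = γ * χ (r v) ((s v)⁻¹ * x * s v) * γ⁻¹ := by
  obtain ⟨o⟩ := hT.connected.nonempty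
  obtain ⟨γ, hγ⟩ : ∃ γ, γ = gam hT (dl L r s χ) := ⟨_, rfl⟩
  have hγm : ∀ u v w, γ u v * γ v w = γ u w := by
    rw [hγ]
    exact gam_mul hT _ (hd.dl_inv hact)
  have hγ1 : ∀ u, γ u u = 1 := by
    rw [hγ]
    exact gam_self hT _ (hd.dl_inv hact)
  have hγs : ∀ g ∈ ⨆ v : V, Sb L v, ∀ u v, γ (g • u) (g • v) =
      χ (r u) (mm s g u) * γ u v * (χ (r v) (mm s g v))⁻¹ := by
    rw [hγ]
    exact fun g hg u v => hd.gam_smul hT hact hg u v
  have hγi : ∀ u v, γ v u = (γ u v)⁻¹ := by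
    intro u v
    have h1 := hγm u v u
    rw [hγ1] at h1
    exact (inv_eq_of_mul_eq_one_right h1).symm
  refine ⟨fun g => γ o (g • o) * χ (r o) (mm s g o), ?_, ?_⟩
  · intro g hg h hh
    show γ o ((g * h) • o) * χ (r o) (mm s (g * h) o) =
      γ o (g • o) * χ (r o) (mm s g o) * (γ o (h • o) * χ (r o) (mm s h o))
    have h1 : mm s g (h • o) ∈ Sb L (r o) := by
      have := hd.mm_mem hg (h • o)
      rwa [hd.r_smul hh] at this
    rw [mul_smul, mm_mul, hd.hom _ _ h1 _ (hd.mm_mem hh o), ← hγm o (g • o), hγs g hg,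
      hd.r_smul hh]
    generalize χ (r o) (mm s g (h • o)) = a
    generalize χ (r o) (mm s h o) = b
    generalize χ (r o) (mm s g o) = c
    generalize γ o (g • o) = d
    generalize γ o (h • o) = e
    group
  · intro v
    refine ⟨γ o v, ?_⟩
    intro x hx
    have hxH : x ∈ ⨆ v : V, Sb L v := le_iSup (Sb L) v hx
    show γ o (x • o) * χ (r o) (mm s x o) = _
    have h1 := hγs x hxH v o
    rw [hx.1] at h1
    rw [← hγm o v (x • o), h1]
    have h2 : mm s x v = (s v)⁻¹ * x * s v := by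
      unfold mm
      rw [hx.1]
    rw [h2, hγi o v]
    generalize χ (r v) ((s v)⁻¹ * x * s v) = a
    generalize χ (r o) (mm s x o) = b
    generalize γ o v = c
    group

end gauge

section inv

variable {G V W : Type} {T : SimpleGraph V} [Group G] [Group W] [MulAction G V]

/-- systems which are invariant under `G` and inner automorphisms of `W` -/
structure ISys (T : SimpleGraph V) (L : Subgroup G) (𝒢 : V → (G → W) → Prop) : Prop
    extends Sys T (Sb L) 𝒢 where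
  eqv : ∀ (g : G) v f, 𝒢 v f → 𝒢 (g • v) (fun x => f (g⁻¹ * x * g))
  inn : ∀ (w : W) v f, 𝒢 v f → 𝒢 v (fun x => w * f x * w⁻¹)
  con : ∀ v f f', 𝒢 v f → (∀ x ∈ Sb L v, f' x = f x) → 𝒢 v f'

/-- **extension of good homomorphisms** -/
theorem ISys.exists_hom {L : Subgroup G} [L.Normal] {𝒢 : V → (G → W) → Prop} (h𝒢 : ISys T L 𝒢)
    (hT : T.IsTree) (hact : ∀ (g : G) (u v : V), T.Adj u v → T.Adj (g • u) (g • v))
    (v : V) (f0 : G → W) (hf0 : 𝒢 v f0) :
    ∃ φ : G → W, PH (⨆ v : V, Sb L v) φ ∧ (∀ u, 𝒢 u φ) ∧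
      ∃ γ : W, ∀ x ∈ Sb L v, φ x = γ * f0 x * γ⁻¹ := by
  obtain ⟨S, hS⟩ := Tv.exists (R := Sb (V := V) L) hT
  have hq := Tq.of_Sb hT hact L hS
  obtain ⟨a, ha, o, ho, hao⟩ := hq.cover v
  -- the homomorphism at the representative
  have hf1 : 𝒢 o (fun x => f0 (a⁻¹⁻¹ * x * a⁻¹)) := by
    have h1 := h𝒢.eqv a⁻¹ v f0 hf0
    have h2 : a⁻¹ • v = o := by rw [hao, inv_smul_smul]
    rwa [h2] at h1
  obtain ⟨χ, hχ, hχo, hc⟩ := exists_fam hT h𝒢.toSys o _ hf1
  obtain ⟨r, s, hd⟩ := Gd.ex L χ (fun v => h𝒢.hom v _ (hχ v)) hc hq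
  obtain ⟨φ, hφ, hφv⟩ := hd.main hT hact
  refine ⟨φ, hφ, ?_, ?_⟩
  · intro u
    obtain ⟨γ, hγ⟩ := hφv u
    have h1 := h𝒢.inn γ _ _ (h𝒢.eqv (s u) _ _ (hχ (r u)))
    rw [← hd.eq u] at h1
    exact h𝒢.con u _ _ h1 hγ
  · obtain ⟨γ, hγ⟩ := hφv v
    have hrv : r v = o := by
      refine hd.tq.trans (a⁻¹ * s v) (mul_mem (inv_mem ha) (hd.sH v)) _ (hd.rS v) o ho ?_
      rw [mul_smul, ← hd.eq v, hao, inv_smul_smul]
    -- the element which compares the two representations of `v`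
    have hb : a⁻¹ * s v ∈ Sb L o := by
      refine mem_Sb.2 ⟨?_, Sb_le L (mul_mem (inv_mem ha) (hd.sH v))⟩
      have h2 := hd.eq v
      rw [hrv] at h2
      rw [mul_smul, ← h2, hao, inv_smul_smul]
    refine ⟨γ * (χ o (a⁻¹ * s v))⁻¹, ?_⟩
    intro x hx
    have hx' : a⁻¹ * x * a ∈ Sb L o := by
      have h3 := Sb_conj L a⁻¹ v hx
      rwa [inv_inv, hao, inv_smul_smul] at h3
    have h4 : (s v)⁻¹ * x * s v = (a⁻¹ * s v)⁻¹ * (a⁻¹ * x * a) * (a⁻¹ * s v) := by group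
    have hh := h𝒢.hom o _ (hχ o)
    have h5 : χ o (a⁻¹ * x * a) = f0 x := by
      rw [hχo]
      show f0 (a⁻¹⁻¹ * (a⁻¹ * x * a) * a⁻¹) = f0 x
      congr 1
      group
    rw [hγ x hx, hrv, h4, hh _ (mul_mem (inv_mem hb) hx') _ hb, hh _ (inv_mem hb) _ hx', hh.inv hb,
      h5]
    group

end inv

end Pool.Agent.U643.TR
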