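import Pool.Agent.U643.TR.Fi

/-!
# The action of the quotient by the group generated by a compatible family
-/

set_option autoImplicit false

namespace Pool.Agent.U643.TR

open SimpleGraph
open Pool.Agent.Y110.FJ
open Pool.Agent.N509.TK (Sb mem_Sb Sb_le Sb_conj Sb_normal EE Tq Tv Tv.exists Tq.of_Sb qa sm
  sm_spec sm_adj)

section

variable {G V : Type} {T : SimpleGraph V} [Group G] [MulAction G V]

/-- a tree for the quotient -/
structure QT (T : SimpleGraph V) (N : Subgroup G) [N.Normal] (S : Type) [MulAction (G ⧸ N) S]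
    (T' : SimpleGraph S) (p : S → V) : Prop where
  tree : T'.IsTree
  act : ∀ (q : G ⧸ N) (s t : S), T'.Adj s t → T'.Adj (q • s) (q • t)
  adj : ∀ s t : S, T'.Adj s t → T.Adj (p s) (p t)
  stab : ∀ (q : G ⧸ N) (s : S), q • s = s → ∃ h : G, h • p s = p s ∧ (h : G ⧸ N) = q
  edge : ∀ (q : G ⧸ N) (s t : S), T'.Adj s t → q • s = s → q • t = t →
    ∃ h : G, h • p s = p s ∧ h • p t = p t ∧ (h : G ⧸ N) = q
  down : ∀ (h : G) (s : S), h • p s = p s → (h : G ⧸ N) • s = s

theorem qtree (hT : T.IsTree) (hact : ∀ (g : G) (u v : V), T.Adj u v → T.Adj (g • u) (g • v))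
    (N : Subgroup G) [N.Normal] (hN : N = ⨆ v : V, Sb N v) :
    ∃ (S : Type) (_ : MulAction (G ⧸ N) S) (T' : SimpleGraph S) (p : S → V), QT T N S T' p := by
  obtain ⟨S, hS0⟩ := Tv.exists (R := Sb (V := V) N) hT
  have hS := Tq.of_Sb hT hact N hS0
  rw [← hN] at hS
  let iQ := qa hS
  -- lifts of the elements which fix a vertex
  have key : ∀ (g : G) (s : S), sm hS g s = s → ∃ h : G, h • (s : V) = s ∧ (h : G ⧸ N) = g := by
    intro g s hs
    obtain ⟨h, hh, h2⟩ := sm_spec hS g s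
    rw [hs] at h2
    refine ⟨h⁻¹ * g, by rw [mul_smul, h2, inv_smul_smul], ?_⟩
    refine QuotientGroup.eq.2 ?_
    have hn : N.Normal := inferInstance
    have h3 := hn.conj_mem h hh g⁻¹
    have h4 : (h⁻¹ * g)⁻¹ * g = g⁻¹ * h * g⁻¹⁻¹ := by group
    rw [h4]
    exact h3
  refine ⟨S, iQ, T.induce S, Subtype.val, ⟨hS.isTree hT, ?_, ?_, ?_, ?_, ?_⟩⟩
  · intro q s t hst
    obtain ⟨g, rfl⟩ := QuotientGroup.mk_surjective q
    exact sm_adj hact hS g s t hst
  · intro s t hst
    exact hst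
  · intro q s hs
    obtain ⟨g, rfl⟩ := QuotientGroup.mk_surjective q
    exact key g s hs
  · intro q s t hst hs ht
    obtain ⟨g, rfl⟩ := QuotientGroup.mk_surjective q
    obtain ⟨h, h1, h2⟩ := key g s hs
    have h3 : sm hS h t = t := by
      have h4 : (g : G ⧸ N) • t = t := ht
      rw [← h2] at h4
      exact h4
    obtain ⟨k, hk, h4⟩ := sm_spec hS h t
    rw [h3] at h4
    have h5 : T.Adj (s : V) (k • (t : V)) := by
      have h6 := hact h _ _ (show T.Adj (s : V) (t : V) from hst)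
      rwa [h1, h4] at h6
    obtain ⟨u, hu, h6, r, hr, hrs, hru⟩ := hS.max s s.2 _ h5
    have h7 : u = (t : V) := by
      refine hS.trans (k⁻¹ * r) (mul_mem (inv_mem hk) hr) u hu t t.2 ?_
      rw [mul_smul, hru, inv_smul_smul]
    refine ⟨r⁻¹ * h, ?_, ?_, ?_⟩
    · rw [mul_smul, h1, inv_smul_eq_iff, hrs]
    · rw [mul_smul, h4, ← hru, inv_smul_smul, h7]
    · rw [QuotientGroup.mk_mul, QuotientGroup.mk_inv, (QuotientGroup.eq_one_iff r).2 hr, inv_one,
        one_mul, h2]
  · intro h s hs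
    show sm hS h s = s
    exact Pool.Agent.N509.TK.sm_eq hS (one_mem _) (by rw [hs, one_smul])

/-- the group generated by a compatible family -/
theorem Fm.gen {R : V → Subgroup G} (h : Fm T R) (hT : T.IsTree)
    (hact : ∀ (g : G) (u v : V), T.Adj u v → T.Adj (g • u) (g • v)) (N : Subgroup G)
    (hN : N = ⨆ v, R v) : N = ⨆ v : V, Sb N v := by
  apply le_antisymm
  · rw [hN]
    refine iSup_le fun v x hx => ?_
    have h1 : x ∈ Sb (⨆ v, R v) v := mem_Sb.2 ⟨h.le v x hx, le_iSup R v hx⟩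
    exact le_iSup (Sb (⨆ v, R v)) v h1
  · exact Sb_le (V := V) N

end

end Pool.Agent.U643.TR
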