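import Pool.Agent.U643.TR.Hm
import Pool.Agent.U643.GP.Ser
import Pool.Agent.N509.TK.Fin

/-!
# The quotient by the intersection of the kernels of the good homomorphisms
-/

set_option autoImplicit false

namespace Pool.Agent.U643.TR

open SimpleGraph
open Pool.Agent.Y110.FJ
open Pool.Agent.Y462.SS (Closed)
open Pool.Agent.N509.TK (Sb mem_Sb Sb_le Sb_conj Sb_normal Tq Tv Tv.exists Tq.of_Sb quot_tree)
open Pool.Agent.R941.FJ (C_equiv C_le C_cyc mem_sup_normal)
open Pool.Agent.U643.GP (Kern kern_ext cyc_quot)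
open scoped commutatorElement

variable {C : ∀ (G : Type) [Group G], Prop}

/-- locally finite kernels -/
theorem kern_lf (hC : ClosedE C) {G : Type} [Group G] (N : Subgroup G) [N.Normal]
    (h : ∀ E : Set G, E.Finite → E ⊆ N → Finite (Subgroup.closure E)) : Kern C N := by
  intro g
  refine Q30.FJ.loc_fin hC _ (N.subgroupOf (N ⊔ Subgroup.zpowers g)) ?_ (cyc_quot hC.base N g)
  intro E hE hEN
  have h1 := h _ (hE.image Subtype.val) (by
    rintro _ ⟨y, hy, rfl⟩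
    exact hEN hy)
  have h2 : Subgroup.closure (Subtype.val '' E) =
      (Subgroup.closure E).map (N ⊔ Subgroup.zpowers g).subtype := by
    rw [MonoidHom.map_closure]
    rfl
  rw [h2] at h1
  exact Finite.of_injective ((Subgroup.closure E).equivMapOfInjective
    (N ⊔ Subgroup.zpowers g).subtype (N ⊔ Subgroup.zpowers g).subtype_injective)
    (MulEquiv.injective _)

/-- abelian kernels -/
theorem kern_ab (hM : ∀ (G : Type) [Group G], derivedSeries G 2 = ⊥ → C G)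
    {G : Type} [Group G] (N : Subgroup G) [N.Normal]
    (hab : ∀ x ∈ N, ∀ y ∈ N, x * y = y * x) : Kern C N := by
  intro g
  refine hM _ (Pool.Agent.N509.TK.metab (N.subgroupOf (N ⊔ Subgroup.zpowers g)) ?_ ?_)
  · intro x hx y hy
    exact Subtype.ext (hab x hx y hy)
  · rintro ⟨x, hx⟩ ⟨y, hy⟩
    obtain ⟨a, ha, _, ⟨i, rfl⟩, rfl⟩ := mem_sup_normal.1 hx
    obtain ⟨b, hb, _, ⟨j, rfl⟩, rfl⟩ := mem_sup_normal.1 hy
    rw [Subgroup.mem_subgroupOf]
    show ⁅a * g ^ i, b * g ^ j⁆ ∈ N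
    rw [← QuotientGroup.eq_one_iff]
    have h1 : ((⁅a * g ^ i, b * g ^ j⁆ : G) : G ⧸ N) =
        ⁅((a * g ^ i : G) : G ⧸ N), ((b * g ^ j : G) : G ⧸ N)⁆ := rfl
    rw [h1, QuotientGroup.mk_mul, QuotientGroup.mk_mul, (QuotientGroup.eq_one_iff a).2 ha,
      (QuotientGroup.eq_one_iff b).2 hb, one_mul, one_mul, commutatorElement_eq_one_iff_mul_comm]
    show ((g : G ⧸ N)) ^ i * ((g : G ⧸ N)) ^ j = _
    rw [← zpow_add, add_comm, zpow_add]
    rfl

/-- quotients by smaller subgroups -/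
theorem quot_down (hC : ClosedE C) {G : Type} [Group G] (H D : Subgroup G) [H.Normal] [D.Normal]
    (hDH : D ≤ H) (hGH : C (G ⧸ H)) (hK : Kern C (H.map (QuotientGroup.mk' D))) : C (G ⧸ D) := by
  have hNn : (H.map (QuotientGroup.mk' D)).Normal :=
    Subgroup.Normal.map inferInstance _ (QuotientGroup.mk'_surjective _)
  refine kern_ext hC (H.map (QuotientGroup.mk' D)) hK ?_
  exact C_equiv hC.base (QuotientGroup.quotientQuotientEquivQuotient D H hDH) hGH

section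

variable {G V W : Type} {T : SimpleGraph V} [Group G] [Group W] [MulAction G V]

/-- the intersection of the kernels of the good homomorphisms -/
def DD (L : Subgroup G) (𝒢 : V → (G → W) → Prop) : Subgroup G where
  carrier := {x | x ∈ (⨆ v : V, Sb L v) ∧ ∀ φ : G → W, PH (⨆ v : V, Sb L v) φ →
    (∀ v, 𝒢 v φ) → φ x = 1}
  mul_mem' := by
    rintro a b ⟨ha, ha'⟩ ⟨hb, hb'⟩
    refine ⟨mul_mem ha hb, fun φ hφ hg => ?_⟩
    rw [hφ a ha b hb, ha' φ hφ hg, hb' φ hφ hg, one_mul]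
  one_mem' := ⟨one_mem _, fun φ hφ _ => hφ.one⟩
  inv_mem' := by
    rintro a ⟨ha, ha'⟩
    refine ⟨inv_mem ha, fun φ hφ hg => ?_⟩
    rw [hφ.inv ha, ha' φ hφ hg, inv_one]

variable {L : Subgroup G} {𝒢 : V → (G → W) → Prop}

theorem DD_le : DD L 𝒢 ≤ ⨆ v : V, Sb L v := fun _ hx => hx.1

theorem DD_normal [L.Normal] (h𝒢 : ISys T L 𝒢) : (DD L 𝒢).Normal := by
  have hn : (⨆ v : V, Sb L v).Normal := Sb_normal L
  refine ⟨?_⟩
  rintro x ⟨hx, hx'⟩ g
  refine ⟨hn.conj_mem x hx g, fun φ hφ hg => ?_⟩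
  have h1 := hx' (fun y => φ ((g⁻¹)⁻¹ * y * g⁻¹)) ?_ ?_
  · have h2 : φ ((g⁻¹)⁻¹ * x * g⁻¹) = 1 := h1
    rwa [inv_inv] at h2
  · intro a ha b hb
    have ha' := hn.conj_mem a ha g
    have hb' := hn.conj_mem b hb g
    have h3 : (g⁻¹)⁻¹ * (a * b) * g⁻¹ = (g * a * g⁻¹) * (g * b * g⁻¹) := by group
    show φ ((g⁻¹)⁻¹ * (a * b) * g⁻¹) = φ ((g⁻¹)⁻¹ * a * g⁻¹) * φ ((g⁻¹)⁻¹ * b * g⁻¹)
    rw [h3, hφ _ ha' _ hb', inv_inv]
  · intro v
    have h3 := h𝒢.eqv g⁻¹ (g • v) φ (hg _)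
    rwa [inv_smul_smul] at h3

theorem Sb_DD [L.Normal] (h𝒢 : ISys T L 𝒢) (hT : T.IsTree)
    (hact : ∀ (g : G) (u v : V), T.Adj u v → T.Adj (g • u) (g • v)) {v : V} {x : G}
    (hx : x ∈ DD L 𝒢) (hv : x • v = v) (f : G → W) (hf : 𝒢 v f) : f x = 1 := by
  obtain ⟨φ, hφ, hg, γ, hγ⟩ := h𝒢.exists_hom hT hact v f hf
  have h1 : x ∈ Sb L v := mem_Sb.2 ⟨hv, Sb_le L hx.1⟩
  have h2 := hx.2 φ hφ hg
  rw [hγ x h1] at h2
  have h3 : f x = γ⁻¹ * (γ * f x * γ⁻¹) * γ := by group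
  rw [h3, h2]
  group

/-- the quotient by the group generated by the stabilizers -/
theorem quot_Sb (hC : ClosedE C) (hT : T.IsTree)
    (hact : ∀ (g : G) (u v : V), T.Adj u v → T.Adj (g • u) (g • v)) [L.Normal] (hQ : C (G ⧸ L))
    (H : Subgroup G) [H.Normal] (hH : H = ⨆ v : V, Sb L v) : C (G ⧸ H) := by
  obtain ⟨S, hS⟩ := Tv.exists (R := Sb (V := V) L) hT
  have hq := Tq.of_Sb hT hact L hS
  rw [← hH] at hq
  refine quot_tree hC hT hact hq (QuotientGroup.mk' L) hQ ?_ ?_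
  · intro h hh
    refine (QuotientGroup.eq_one_iff h).2 (Sb_le (V := V) L ?_)
    rwa [← hH]
  · intro v g hg hgL
    rw [hH]
    exact le_iSup (Sb L) v (mem_Sb.2 ⟨hg, (QuotientGroup.eq_one_iff g).1 hgL⟩)

/-- finitely generated subgroups of powers of a finite group -/
theorem pow_lf {I : Type} [Finite W] (E : Set (I → W)) (hE : E.Finite) :
    Finite (Subgroup.closure E) := by
  classical
  have := hE.to_subtype
  -- two indices are equivalent if they agree on `E`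
  let k : I → (E → W) := fun i e => e.1 i
  have h1 : ∀ x ∈ Subgroup.closure E, ∀ i j, k i = k j → x i = x j := by
    intro x hx i j hij
    induction hx using Subgroup.closure_induction with
    | mem x hx => exact congrFun hij ⟨x, hx⟩
    | one => rfl
    | mul x y _ _ hx hy =>
      show x i * y i = x j * y j
      rw [hx, hy]
    | inv x _ hx =>
      show (x i)⁻¹ = (x j)⁻¹
      rw [hx]
  let F : Subgroup.closure E → (Set.range k → W) := fun x c => x.1 (Classical.choose c.2)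
  refine Finite.of_injective F ?_
  intro x y hxy
  apply Subtype.ext
  funext i
  have h2 := congrFun hxy ⟨k i, i, rfl⟩
  obtain ⟨j, hj⟩ : ∃ j, j = Classical.choose (⟨i, rfl⟩ : ∃ y, k y = k i) := ⟨_, rfl⟩
  have h3 : k j = k i := by
    rw [hj]
    exact Classical.choose_spec (⟨i, rfl⟩ : ∃ y, k y = k i)
  have h4 : x.1 j = y.1 j := by
    rw [hj]
    exact h2
  rw [h1 x.1 x.2 i j h3.symm, h1 y.1 y.2 i j h3.symm, h4]

/-- the quotient is in the class if `W` is abelian -/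
theorem quot_ab (hC : ClosedE C) (hM : ∀ (G : Type) [Group G], derivedSeries G 2 = ⊥ → C G)
    [L.Normal] (h𝒢 : ISys T L 𝒢) (hW : ∀ a b : W, a * b = b * a) (hT : T.IsTree)
    (hact : ∀ (g : G) (u v : V), T.Adj u v → T.Adj (g • u) (g • v)) (hQ : C (G ⧸ L))
    (D : Subgroup G) [D.Normal] (hD : D = DD L 𝒢) : C (G ⧸ D) := by
  have hn : (⨆ v : V, Sb L v).Normal := Sb_normal L
  obtain ⟨H, hH⟩ : ∃ H : Subgroup G, H = ⨆ v : V, Sb L v := ⟨_, rfl⟩
  rw [← hH] at hn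
  have hDH : D ≤ H := by
    rw [hD, hH]
    exact DD_le
  refine quot_down hC H D hDH (quot_Sb hC hT hact hQ H hH) ?_
  have hNn : (H.map (QuotientGroup.mk' D)).Normal :=
    Subgroup.Normal.map inferInstance _ (QuotientGroup.mk'_surjective _)
  refine kern_ab hM _ ?_
  rintro _ ⟨a, ha, rfl⟩ _ ⟨b, hb, rfl⟩
  rw [← map_mul, ← map_mul]
  refine QuotientGroup.eq.2 ?_
  rw [hD]
  have hab : (a * b)⁻¹ * (b * a) ∈ H := mul_mem (inv_mem (mul_mem ha hb)) (mul_mem hb ha)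
  rw [hH] at ha hb hab
  refine ⟨hab, fun φ hφ _ => ?_⟩
  rw [hφ _ (inv_mem (mul_mem ha hb)) _ (mul_mem hb ha), hφ.inv (mul_mem ha hb), hφ a ha b hb,
    hφ b hb a ha, hW (φ b) (φ a), inv_mul_cancel]

/-- the quotient is in the class if `W` is finite -/
theorem quot_fin (hC : ClosedE C) [L.Normal] (h𝒢 : ISys T L 𝒢) [Finite W] (hT : T.IsTree)
    (hact : ∀ (g : G) (u v : V), T.Adj u v → T.Adj (g • u) (g • v)) (hQ : C (G ⧸ L))
    (D : Subgroup G) [D.Normal] (hD : D = DD L 𝒢) : C (G ⧸ D) := by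
  have hn : (⨆ v : V, Sb L v).Normal := Sb_normal L
  obtain ⟨H, hH⟩ : ∃ H : Subgroup G, H = ⨆ v : V, Sb L v := ⟨_, rfl⟩
  rw [← hH] at hn
  have hDH : D ≤ H := by
    rw [hD, hH]
    exact DD_le
  refine quot_down hC H D hDH (quot_Sb hC hT hact hQ H hH) ?_
  have hNn : (H.map (QuotientGroup.mk' D)).Normal :=
    Subgroup.Normal.map inferInstance _ (QuotientGroup.mk'_surjective _)
  -- the embedding in a power of `W`
  let I : Type := {φ : G → W // PH (⨆ v : V, Sb L v) φ ∧ ∀ v, 𝒢 v φ}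
  let Φ : H →* (I → W) := MonoidHom.mk' (fun x φ => φ.1 x) (by
    intro x y
    funext φ
    exact φ.2.1 x (hH ▸ x.2) y (hH ▸ y.2))
  have hΦ : ∀ x : H, Φ x = 1 → (x : G) ∈ D := by
    intro x hx
    rw [hD]
    exact ⟨hH ▸ x.2, fun φ hφ hg => congrFun hx ⟨φ, hφ, hg⟩⟩
  refine kern_lf hC _ ?_
  intro E hE hEN
  -- lift the finite set
  have h1 : ∀ x : G ⧸ D, ∃ y : H, x ∈ E → QuotientGroup.mk' D (y : G) = x := by
    intro x
    by_cases hx : x ∈ E
    · obtain ⟨y, hy, hyx⟩ := hEN hx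
      exact ⟨⟨y, hy⟩, fun _ => hyx⟩
    · exact ⟨1, fun h => absurd h hx⟩
  choose σ hσ using h1
  have h2 : Finite (Subgroup.closure (Φ '' (σ '' E))) := pow_lf _ ((hE.image σ).image Φ)
  have h3 : Subgroup.closure (Φ '' (σ '' E)) = (Subgroup.closure (σ '' E)).map Φ := by
    rw [MonoidHom.map_closure]
  rw [h3] at h2
  have h4 : Subgroup.closure E = (Subgroup.closure (σ '' E)).map
      ((QuotientGroup.mk' D).comp H.subtype) := by
    rw [MonoidHom.map_closure, Set.image_image]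
    congr 1
    ext x
    constructor
    · intro hx
      exact ⟨x, hx, hσ x hx⟩
    · rintro ⟨y, hy, rfl⟩
      have h5 := hσ y hy
      show (QuotientGroup.mk' D) ((σ y : H) : G) ∈ E
      rw [h5]
      exact hy
  rw [h4]
  -- the second image is a quotient of the first
  have h6 : ∀ z : (Subgroup.closure (σ '' E)).map ((QuotientGroup.mk' D).comp H.subtype),
      ∃ y : H, y ∈ Subgroup.closure (σ '' E) ∧ (QuotientGroup.mk' D) (y : G) = z := by
    rintro ⟨_, y, hy, rfl⟩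
    exact ⟨y, hy, rfl⟩
  choose τ hτ1 hτ2 using h6
  refine Finite.of_injective (fun z => (⟨Φ (τ z), τ z, hτ1 z, rfl⟩ :
    (Subgroup.closure (σ '' E)).map Φ)) ?_
  intro z z' hzz
  have h7 : Φ (τ z) = Φ (τ z') := congrArg Subtype.val hzz
  have h8 : ((τ z)⁻¹ * τ z' : H).1 ∈ D := by
    apply hΦ
    rw [map_mul, map_inv, h7, inv_mul_cancel]
  apply Subtype.ext
  rw [← hτ2 z, ← hτ2 z']
  exact QuotientGroup.eq.2 h8

end

end Pool.Agent.U643.TR
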