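import Pool.Agent.U643.TR.De

/-!
# Passing from a compatible family to a smaller one
-/

set_option autoImplicit false

namespace Pool.Agent.U643.TR

open SimpleGraph
open Pool.Agent.Y110.FJ
open Pool.Agent.N509.TK (Sb mem_Sb Sb_le Sb_conj Sb_normal EE)
open Pool.Agent.R941.FJ (C_equiv C_le C_cyc mem_sup_normal)
open Pool.Agent.U643.GP (Kern kern_ext cyc_quot)
open scoped commutatorElement

variable {C : ∀ (G : Type) [Group G], Prop}

section

variable {G V : Type} {T : SimpleGraph V} [Group G] [MulAction G V] {R R' : V → Subgroup G}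

/-- the image of `N` in `G ⧸ N'` -/
abbrev Lb (N N' : Subgroup G) [N'.Normal] : Subgroup (G ⧸ N') := N.map (QuotientGroup.mk' N')

theorem Lb_normal (N N' : Subgroup G) [N.Normal] [N'.Normal] : (Lb N N').Normal :=
  Subgroup.Normal.map inferInstance _ (QuotientGroup.mk'_surjective _)

theorem Lb_mem {N N' : Subgroup G} [N'.Normal] (h : N' ≤ N) {x : G} :
    (x : G ⧸ N') ∈ Lb N N' ↔ x ∈ N := by
  constructor
  · rintro ⟨n, hn, hx⟩
    have h1 : n⁻¹ * x ∈ N' := QuotientGroup.eq.1 hx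
    have h2 := mul_mem hn (h h1)
    rwa [mul_inv_cancel_left] at h2
  · intro hx
    exact ⟨x, hx, rfl⟩

theorem Lb_quot (hC : ClosedE C) (N N' : Subgroup G) [N.Normal] [N'.Normal] (h : N' ≤ N)
    (hQ : C (G ⧸ N)) (_ : (Lb N N').Normal) : C ((G ⧸ N') ⧸ Lb N N') :=
  C_equiv hC.base (QuotientGroup.quotientQuotientEquivQuotient N' N h) hQ

/-- the elements of the image which fix a vertex -/
theorem Lb_stab (hT : T.IsTree) (hact : ∀ (g : G) (u v : V), T.Adj u v → T.Adj (g • u) (g • v))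
    (hR : Fm T R) {N N' : Subgroup G} [N'.Normal] (hN : N = ⨆ v, R v) (h : N' ≤ N)
    {S : Type} [MulAction (G ⧸ N') S] {T' : SimpleGraph S} {p : S → V} (hS : QT T N' S T' p)
    {q : G ⧸ N'} {s : S} (hq : q ∈ Lb N N') (hs : q • s = s) :
    ∃ x ∈ R (p s), (x : G ⧸ N') = q := by
  obtain ⟨x, hx, rfl⟩ := hS.stab q s hs
  refine ⟨x, ?_, rfl⟩
  have h1 := (Lb_mem h).1 hq
  rw [hN] at h1
  exact hR.meet hT hact h1 hx

theorem Lb_stab' (hR : Fm T R) {N N' : Subgroup G} [N'.Normal] (hN : N = ⨆ v, R v)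
    {S : Type} [MulAction (G ⧸ N') S] {T' : SimpleGraph S} {p : S → V} (hS : QT T N' S T' p)
    {x : G} {s : S} (hx : x ∈ R (p s)) : (x : G ⧸ N') ∈ Sb (Lb N N') s := by
  refine mem_Sb.2 ⟨hS.down x s (hR.le _ x hx), x, ?_, rfl⟩
  rw [hN]
  exact le_iSup R (p s) hx

/-- abelian factors -/
theorem rule_ab (hC : ClosedE C) (hM : ∀ (G : Type) [Group G], derivedSeries G 2 = ⊥ → C G)
    (hT : T.IsTree) (hact : ∀ (g : G) (u v : V), T.Adj u v → T.Adj (g • u) (g • v))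
    (hR : Fm T R) (hR' : Fm T R') (hle : ∀ v, R' v ≤ R v)
    (hab : ∀ v, ∀ x ∈ R v, ∀ y ∈ R v, x * y * x⁻¹ * y⁻¹ ∈ R' v)
    (N N' : Subgroup G) [N.Normal] [N'.Normal] (hN : N = ⨆ v, R v) (hN' : N' = ⨆ v, R' v)
    (hQ : C (G ⧸ N)) : C (G ⧸ N') := by
  have h : N' ≤ N := by
    rw [hN, hN']
    exact iSup_mono hle
  have hLn := Lb_normal N N'
  obtain ⟨S, _, T', p, hS⟩ := qtree hT hact N' (hR'.gen hT hact N' hN')
  refine ab_L hC hM hS.tree hS.act (Lb N N') (Lb_quot hC N N' h hQ hLn) ?_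
  intro s q hq hqs q' hq' hqs'
  obtain ⟨x, hx, rfl⟩ := Lb_stab hT hact hR hN h hS hq hqs
  obtain ⟨y, hy, rfl⟩ := Lb_stab hT hact hR hN h hS hq' hqs'
  have h1 : x * y * x⁻¹ * y⁻¹ ∈ N' := by
    rw [hN']
    exact le_iSup R' (p s) (hab _ x hx y hy)
  have h2 := (QuotientGroup.eq_one_iff (N := N') _).2 h1
  rw [QuotientGroup.mk_mul, QuotientGroup.mk_mul, QuotientGroup.mk_mul, QuotientGroup.mk_inv,
    QuotientGroup.mk_inv] at h2
  have h3 : (x : G ⧸ N') * y = ((x : G ⧸ N') * y * (x : G ⧸ N')⁻¹ * (y : G ⧸ N')⁻¹) * (y * x) := by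
    group
  rw [h3, h2, one_mul]

/-- finite factors -/
theorem rule_fin (hC : ClosedE C)
    (hT : T.IsTree) (hact : ∀ (g : G) (u v : V), T.Adj u v → T.Adj (g • u) (g • v))
    (hR : Fm T R) (hR' : Fm T R') (hle : ∀ v, R' v ≤ R v)
    (hfin : ∀ v, (R' v).relIndex (R v) ≠ 0)
    (N N' : Subgroup G) [N.Normal] [N'.Normal] (hN : N = ⨆ v, R v) (hN' : N' = ⨆ v, R' v)
    (hQ : C (G ⧸ N)) : C (G ⧸ N') := by
  have h : N' ≤ N := by
    rw [hN, hN']
    exact iSup_mono hle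
  have hLn := Lb_normal N N'
  obtain ⟨S, _, T', p, hS⟩ := qtree hT hact N' (hR'.gen hT hact N' hN')
  refine fin_L hC hS.tree hS.act (Lb N N') (Lb_quot hC N N' h hQ hLn) ?_
  intro s
  have h0 : ∀ q : Sb (Lb N N') s, ∃ x : R (p s), ((x : G) : G ⧸ N') = q := by
    intro q
    obtain ⟨x, hx, hxq⟩ := Lb_stab hT hact hR hN h hS q.2.2 q.2.1
    exact ⟨⟨x, hx⟩, hxq⟩
  choose σ hσ using h0
  have hfi : Finite (R (p s) ⧸ (R' (p s)).subgroupOf (R (p s))) :=
    Subgroup.index_ne_zero_iff_finite.1 (hfin (p s))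
  refine Finite.of_injective (fun q => (QuotientGroup.mk (σ q) :
    R (p s) ⧸ (R' (p s)).subgroupOf (R (p s)))) ?_
  intro q q' hqq
  have h1 : (σ q)⁻¹ * σ q' ∈ (R' (p s)).subgroupOf (R (p s)) := QuotientGroup.eq.1 hqq
  have h2 : ((σ q : G))⁻¹ * (σ q' : G) ∈ R' (p s) := h1
  apply Subtype.ext
  rw [← hσ q, ← hσ q']
  refine QuotientGroup.eq.2 ?_
  rw [hN']
  exact le_iSup R' (p s) h2

/-- every extension of `A / B` by a cyclic group is in the class -/
def Cy (C : ∀ (G : Type) [Group G], Prop) (A B : Subgroup G) : Prop :=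
  ∀ (P : Type) [Group P] (K : Subgroup P) [K.Normal] (φ : A →* P), φ.range = K →
    (∀ x : A, φ x = 1 ↔ (x : G) ∈ B) → IsCyclic (P ⧸ K) → C P

/-- constant factors -/
theorem rule_con (hC : ClosedE C)
    (hT : T.IsTree) (hact : ∀ (g : G) (u v : V), T.Adj u v → T.Adj (g • u) (g • v))
    (hR : Fm T R) (hR' : Fm T R') (hle : ∀ v, R' v ≤ R v)
    (hcon : ∀ v u, T.Adj v u → ∀ x ∈ R v, ∃ y, y • u = u ∧ y⁻¹ * x ∈ R' v)
    (hcy : ∀ v, Cy C (R v) (R' v))
    (N N' : Subgroup G) [N.Normal] [N'.Normal] (hN : N = ⨆ v, R v) (hN' : N' = ⨆ v, R' v)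
    (hQ : C (G ⧸ N)) : C (G ⧸ N') := by
  have h : N' ≤ N := by
    rw [hN, hN']
    exact iSup_mono hle
  have hLn := Lb_normal N N'
  obtain ⟨S, _, T', p, hS⟩ := qtree hT hact N' (hR'.gen hT hact N' hN')
  obtain ⟨o⟩ := hS.tree.connected.nonempty
  -- the stabilizers in the image are the same
  have h1 : ∀ s t : S, T'.Adj s t → Sb (Lb N N') s ≤ Sb (Lb N N') t := by
    intro s t hst q hq
    obtain ⟨x, hx, rfl⟩ := Lb_stab hT hact hR hN h hS hq.2 hq.1
    obtain ⟨y, hy, hyx⟩ := hcon _ _ (hS.adj s t hst) x hx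
    have h2 : y ∈ R (p s) := by
      have h3 : y = x * (y⁻¹ * x)⁻¹ := by group
      rw [h3]
      exact mul_mem hx (inv_mem (hle _ hyx))
    have h4 : y ∈ R (p t) := hR.comp _ _ (hS.adj s t hst) y h2 hy
    have h5 : (x : G ⧸ N') = (y : G ⧸ N') := by
      symm
      refine QuotientGroup.eq.2 ?_
      rw [hN']
      exact le_iSup R' (p s) hyx
    rw [h5]
    exact Lb_stab' hR hN hS h4
  have h2 : ∀ s t : S, Sb (Lb N N') s ≤ Sb (Lb N N') t := by
    intro s t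
    obtain ⟨w⟩ := hS.tree.connected.preconnected s t
    induction w with
    | nil => exact le_refl _
    | cons h _ ih => exact (h1 _ _ h).trans ih
  obtain ⟨Q, hQe⟩ : ∃ Q : Subgroup (G ⧸ N'), Q = Sb (Lb N N') o := ⟨_, rfl⟩
  have h3 : Q = ⨆ s : S, Sb (Lb N N') s := by
    rw [hQe]
    exact le_antisymm (le_iSup (Sb (Lb N N')) o) (iSup_le fun s => h2 s o)
  have hQn : Q.Normal := by
    rw [h3]
    exact Sb_normal _
  have h4 : C ((G ⧸ N') ⧸ Q) := quot_Sb hC hS.tree hS.act (Lb_quot hC N N' h hQ hLn) Q h3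
  refine kern_ext hC Q ?_ h4
  intro g
  have hle' : Q ≤ Q ⊔ Subgroup.zpowers g := le_sup_left
  let φ : R (p o) →* ↥(Q ⊔ Subgroup.zpowers g) :=
    { toFun := fun x => ⟨((x : G) : G ⧸ N'), hle' (by
        rw [hQe]
        exact Lb_stab' hR hN hS x.2)⟩
      map_one' := rfl
      map_mul' := fun x y => rfl }
  refine hcy (p o) ↥(Q ⊔ Subgroup.zpowers g) (Q.subgroupOf (Q ⊔ Subgroup.zpowers g)) φ ?_ ?_ ?_
  · ext ⟨q, hq⟩
    rw [Subgroup.mem_subgroupOf]
    constructor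
    · rintro ⟨x, hx⟩
      have h5 : ((x : G) : G ⧸ N') = q := congrArg Subtype.val hx
      show q ∈ Q
      rw [← h5, hQe]
      exact Lb_stab' hR hN hS x.2
    · intro h5
      have h6 : q ∈ Q := h5
      rw [hQe] at h6
      obtain ⟨x, hx, hxq⟩ := Lb_stab hT hact hR hN h hS h6.2 h6.1
      exact ⟨⟨x, hx⟩, Subtype.ext hxq⟩
  · intro x
    constructor
    · intro hx
      have h5 : ((x : G) : G ⧸ N') = 1 := congrArg Subtype.val hx
      have h6 := (QuotientGroup.eq_one_iff _).1 h5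
      rw [hN'] at h6
      exact hR'.meet hT hact h6 (hR.le _ x x.2)
    · intro hx
      refine Subtype.ext ?_
      show ((x : G) : G ⧸ N') = 1
      refine (QuotientGroup.eq_one_iff _).2 ?_
      rw [hN']
      exact le_iSup R' (p o) hx
  · refine ⟨⟨QuotientGroup.mk ⟨g, Subgroup.mem_sup_right (Subgroup.mem_zpowers g)⟩, ?_⟩⟩
    intro z
    obtain ⟨⟨y, hy⟩, rfl⟩ := QuotientGroup.mk_surjective z
    obtain ⟨a, ha, _, ⟨i, rfl⟩, rfl⟩ := mem_sup_normal.1 hy
    refine ⟨i, ?_⟩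
    show (QuotientGroup.mk ⟨g, Subgroup.mem_sup_right (Subgroup.mem_zpowers g)⟩ :
      ↥(Q ⊔ Subgroup.zpowers g) ⧸ Q.subgroupOf (Q ⊔ Subgroup.zpowers g)) ^ i = _
    rw [← QuotientGroup.mk_zpow]
    refine QuotientGroup.eq.2 ?_
    rw [Subgroup.mem_subgroupOf]
    show (g ^ i)⁻¹ * (a * g ^ i) ∈ Q
    have h5 := hQn.conj_mem a ha (g ^ i)⁻¹
    rw [inv_inv] at h5
    rwa [← mul_assoc]

/-- the quotient `G_v / R' v` is in the class -/
def Sq (C : ∀ (G : Type) [Group G], Prop) (R' : V → Subgroup G) (v : V) : Prop :=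
  ∃ (P : Type) (_ : Group P) (f : ↥(MulAction.stabilizer G v) →* P), C P ∧
    ∀ x, f x = 1 ↔ (x : G) ∈ R' v

/-- factors whose edge groups embed in the first homology -/
theorem rule_hom (hC : ClosedE C) (hM : ∀ (G : Type) [Group G], derivedSeries G 2 = ⊥ → C G)
    (hT : T.IsTree) (hact : ∀ (g : G) (u v : V), T.Adj u v → T.Adj (g • u) (g • v))
    (hR' : Fm T R') (hV : ∀ v : V, Sq C R' v)
    (hE : ∀ v u, T.Adj v u → ∃ R : V → Subgroup G, Fm T R ∧ (∀ v, R' v ≤ R v) ∧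
      (∀ (N : Subgroup G) [N.Normal], N = ⨆ v, R v → C (G ⧸ N)) ∧
      ∀ x, x • v = v → x • u = u → x ∈ ⁅R v, R v⁆ ⊔ R' v → x ∈ R' v)
    (N' : Subgroup G) [N'.Normal] (hN' : N' = ⨆ v, R' v) : C (G ⧸ N') := by
  obtain ⟨S, _, T', p, hS⟩ := qtree hT hact N' (hR'.gen hT hact N' hN')
  refine Pool.Agent.N509.TK.hedges hC hM hS.tree hS.act ?_ ?_
  · intro s
    obtain ⟨P, _, f, hP, hf⟩ := hV (p s)
    let g : ↥(MulAction.stabilizer G (p s)) →* ↥(MulAction.stabilizer (G ⧸ N') s) :=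
      { toFun := fun x => ⟨((x : G) : G ⧸ N'), hS.down x s x.2⟩
        map_one' := rfl
        map_mul' := fun x y => rfl }
    have hg : Function.Surjective g := by
      rintro ⟨q, hq⟩
      obtain ⟨x, hx, hxq⟩ := hS.stab q s hq
      exact ⟨⟨x, hx⟩, Subtype.ext hxq⟩
    have hk : g.ker = f.ker := by
      ext x
      rw [MonoidHom.mem_ker, MonoidHom.mem_ker, hf]
      constructor
      · intro hx
        have h5 : ((x : G) : G ⧸ N') = 1 := congrArg Subtype.val hx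
        have h6 := (QuotientGroup.eq_one_iff _).1 h5
        rw [hN'] at h6
        exact hR'.meet hT hact h6 x.2
      · intro hx
        refine Subtype.ext ?_
        show ((x : G) : G ⧸ N') = 1
        refine (QuotientGroup.eq_one_iff _).2 ?_
        rw [hN']
        exact le_iSup R' (p s) hx
    have h1 : C f.range := C_le hC.base le_top (C_equiv hC.base Subgroup.topEquiv hP)
    have h2 := C_equiv hC.base (QuotientGroup.quotientKerEquivRange f) h1
    have h3 : C (↥(MulAction.stabilizer G (p s)) ⧸ g.ker) :=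
      C_equiv hC.base (QuotientGroup.quotientMulEquivOfEq hk) h2
    exact C_equiv hC.base (QuotientGroup.quotientKerEquivOfSurjective g hg).symm h3
  · intro s t hst
    obtain ⟨R, hR, hle, hQ, hx⟩ := hE _ _ (hS.adj s t hst)
    have hNn : (⨆ v, R v).Normal := hR.normal
    obtain ⟨N, hN⟩ : ∃ N, N = ⨆ v, R v := ⟨_, rfl⟩
    rw [← hN] at hNn
    have h : N' ≤ N := by
      rw [hN, hN']
      exact iSup_mono hle
    have hLn := Lb_normal N N'
    refine ⟨_, inferInstance, QuotientGroup.mk' (Lb N N'),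
      Lb_quot hC N N' h (hQ N hN) hLn, ?_⟩
    intro q hqs hqt hq
    rw [QuotientGroup.ker_mk'] at hq
    obtain ⟨y, hys, hyt, rfl⟩ := hS.edge q s t hst hqs hqt
    have h1 : ⁅Sb (Lb N N') s, Sb (Lb N N') s⁆ ≤
        (⁅R (p s), R (p s)⁆).map (QuotientGroup.mk' N') := by
      rw [Subgroup.map_commutator]
      have h2 : Sb (Lb N N') s ≤ (R (p s)).map (QuotientGroup.mk' N') := by
        intro z hz
        obtain ⟨x, hx, hxz⟩ := Lb_stab hT hact hR hN h hS hz.2 hz.1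
        exact ⟨x, hx, hxz⟩
      exact Subgroup.commutator_mono h2 h2
    obtain ⟨c, hc, hcy⟩ := h1 hq
    have hcR : c ∈ R (p s) := (Subgroup.commutator_le_self _) hc
    have h2 : c⁻¹ * y ∈ N' := QuotientGroup.eq.1 hcy
    have h3 : c⁻¹ * y ∈ R' (p s) := by
      rw [hN'] at h2
      refine hR'.meet hT hact h2 ?_
      rw [mul_smul, hys, inv_smul_eq_iff, hR.le _ c hcR]
    have h4 : y ∈ R' (p s) := by
      refine hx y hys hyt ?_
      have h5 := mul_mem (Subgroup.mem_sup_left hc) (Subgroup.mem_sup_right h3)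
      rwa [mul_inv_cancel_left] at h5
    refine (QuotientGroup.eq_one_iff y).2 ?_
    rw [hN']
    exact le_iSup R' (p s) h4

end

end Pool.Agent.U643.TR
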