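import Pool.Agent.U643.TR.Cm

/-!
# Passing from a compatible family to a smaller one: further rules
-/

set_option autoImplicit false

namespace Pool.Agent.U643.TR

open SimpleGraph
open Pool.Agent.Y110.FJ
open Pool.Agent.N509.TK (Sb mem_Sb Sb_le Sb_conj Sb_normal EE)
open Pool.Agent.R941.FJ (C_equiv C_le C_cyc mem_sup_normal)
open Pool.Agent.N77.CP (TF Mx VCen Csd)

variable {C : ∀ (G : Type) [Group G], Prop}

section

variable {G V : Type} {T : SimpleGraph V} [Group G] [MulAction G V] {R R' : V → Subgroup G}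

/-- `A / B` has the property -/
def QH (Pr : ∀ (P : Type) [Group P], Prop) (A B : Subgroup G) : Prop :=
  ∃ (P : Type) (_ : Group P) (f : A →* P), Function.Surjective f ∧
    (∀ x : A, f x = 1 ↔ (x : G) ∈ B) ∧ Pr P

/-- finite conjugacy classes and finitely many torsion elements -/
def FCF (P : Type) [Group P] : Prop :=
  (∀ p : P, (Subgroup.centralizer {p}).FiniteIndex) ∧ {p : P | ∃ n : ℕ, 0 < n ∧ p ^ n = 1}.Finite

/-- virtually (torsion-free polycyclic) -/
def VPC (P : Type) [Group P] : Prop :=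
  ∃ S : Subgroup P, S.FiniteIndex ∧ Group.IsSolvable S ∧ Mx S ∧ TF S

theorem lift_iso {A P Q : Type} [Group A] [Group P] [Group Q] (f : A →* P)
    (hf : Function.Surjective f) (φ : A →* Q) (h : ∀ x, f x = 1 ↔ φ x = 1) :
    ∃ j : P →* Q, Function.Injective j ∧ (∀ x, j (f x) = φ x) ∧ j.range = φ.range := by
  have hk : ∀ x ∈ f.ker, φ x = 1 := fun x hx => (h x).1 hx
  let e1 := QuotientGroup.quotientKerEquivOfSurjective f hf
  let j : P →* Q := (QuotientGroup.lift f.ker φ hk).comp e1.symm.toMonoidHom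
  have hj : ∀ x, j (f x) = φ x := by
    intro x
    have h1 : e1.symm (f x) = QuotientGroup.mk x := by
      rw [MulEquiv.symm_apply_eq]
      rfl
    show (QuotientGroup.lift f.ker φ hk) (e1.symm (f x)) = φ x
    rw [h1]
    rfl
  refine ⟨j, ?_, hj, ?_⟩
  · rw [injective_iff_map_eq_one]
    intro y hy
    obtain ⟨x, rfl⟩ := hf y
    rw [hj] at hy
    exact (h x).2 hy
  · ext z
    constructor
    · rintro ⟨y, rfl⟩
      obtain ⟨x, rfl⟩ := hf y
      exact ⟨x, (hj x).symm⟩
    · rintro ⟨x, rfl⟩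
      exact ⟨f x, hj x⟩

/-- the stabilizers in the image -/
theorem Lb_iso (hT : T.IsTree) (hact : ∀ (g : G) (u v : V), T.Adj u v → T.Adj (g • u) (g • v))
    (hR : Fm T R) (hR' : Fm T R') {N N' : Subgroup G} [N'.Normal]
    (hN : N = ⨆ v, R v) (hN' : N' = ⨆ v, R' v) (h : N' ≤ N)
    {S : Type} [MulAction (G ⧸ N') S] {T' : SimpleGraph S} {p : S → V} (hS : QT T N' S T' p) (s : S)
    {P : Type} [Group P] (f : R (p s) →* P) (hf : Function.Surjective f)
    (hk : ∀ x, f x = 1 ↔ (x : G) ∈ R' (p s)) :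
    ∃ j : P →* G ⧸ N', Function.Injective j ∧ j.range = Sb (Lb N N') s := by
  obtain ⟨j, h1, -, h2⟩ := lift_iso f hf ((QuotientGroup.mk' N').comp (R (p s)).subtype) (by
    intro x
    rw [hk]
    constructor
    · intro hx
      refine (QuotientGroup.eq_one_iff (x : G)).2 ?_
      rw [hN']
      exact le_iSup R' (p s) hx
    · intro hx
      have h5 : ((x : G) : G ⧸ N') = 1 := hx
      have h6 := (QuotientGroup.eq_one_iff _).1 h5
      rw [hN'] at h6
      exact hR'.meet hT hact h6 (hR.le _ x x.2))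
  refine ⟨j, h1, ?_⟩
  rw [h2]
  ext q
  constructor
  · rintro ⟨x, rfl⟩
    exact Lb_stab' hR hN hS x.2
  · intro hq
    obtain ⟨x, hx, hxq⟩ := Lb_stab hT hact hR hN h hS hq.2 hq.1
    exact ⟨⟨x, hx⟩, hxq⟩

/-- factors with finite conjugacy classes and finite torsion -/
theorem rule_fc (hC : ClosedE C) (hM : ∀ (G : Type) [Group G], derivedSeries G 2 = ⊥ → C G)
    (hT : T.IsTree) (hact : ∀ (g : G) (u v : V), T.Adj u v → T.Adj (g • u) (g • v))
    (hR : Fm T R) (hR' : Fm T R') (hle : ∀ v, R' v ≤ R v)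
    (hfc : ∀ v, QH FCF (R v) (R' v))
    (N N' : Subgroup G) [N.Normal] [N'.Normal] (hN : N = ⨆ v, R v) (hN' : N' = ⨆ v, R' v)
    (hQ : C (G ⧸ N)) : C (G ⧸ N') := by
  have h : N' ≤ N := by
    rw [hN, hN']
    exact iSup_mono hle
  have hLn := Lb_normal N N'
  obtain ⟨S, _, T', p, hS⟩ := qtree hT hact N' (hR'.gen hT hact N' hN')
  have key : ∀ s : S, ∃ (P : Type) (_ : Group P) (j : P →* G ⧸ N'), FCF P ∧
      Function.Injective j ∧ j.range = Sb (Lb N N') s := by
    intro s
    obtain ⟨P, _, f, hf, hk, hP⟩ := hfc (p s)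
    obtain ⟨j, hj, hj'⟩ := Lb_iso hT hact hR hR' hN hN' h hS s f hf hk
    exact ⟨P, inferInstance, j, hP, hj, hj'⟩
  refine fc_L hC hM hS.tree hS.act (Lb N N') (Lb_quot hC N N' h hQ hLn) ?_ ?_
  · intro s x hx
    obtain ⟨P, _, j, hP, hj, hj'⟩ := key s
    rw [← hj'] at hx ⊢
    obtain ⟨y, rfl⟩ := hx
    show (Subgroup.centralizer {j y}).relIndex j.range ≠ 0
    have h1 : (Subgroup.centralizer {y}).map j ≤ Subgroup.centralizer {j y} := by
      rintro _ ⟨w, hw, rfl⟩
      have hw' : w ∈ Subgroup.centralizer {y} := hw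
      rw [Subgroup.mem_centralizer_singleton_iff] at hw' ⊢
      rw [← map_mul, ← map_mul, hw']
    have h2 : ((Subgroup.centralizer {y}).map j).relIndex j.range ≠ 0 := by
      rw [MonoidHom.range_eq_map, Subgroup.relIndex_map_map_of_injective _ _ hj,
        Subgroup.relIndex_top_right]
      exact (hP.1 y).index_ne_zero
    intro h0
    have h3 := Subgroup.relIndex_dvd_of_le_left j.range h1
    rw [h0, zero_dvd_iff] at h3
    exact h2 h3
  · intro s
    obtain ⟨P, _, j, hP, hj, hj'⟩ := key s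
    refine (hP.2.image j).subset ?_
    rintro x ⟨hx, n, hn, hxn⟩
    rw [← hj'] at hx
    obtain ⟨y, rfl⟩ := hx
    refine ⟨y, ⟨n, hn, hj ?_⟩, rfl⟩
    rw [map_pow, hxn, map_one]

theorem relIndex_map {H K : Type} [Group H] [Group K] (f : H →* K) {A B : Subgroup H}
    (h : A.relIndex B ≠ 0) : (A.map f).relIndex (B.map f) ≠ 0 := by
  rw [← Subgroup.relIndex_comap]
  intro h0
  have h1 := Subgroup.relIndex_dvd_of_le_left B (Subgroup.le_comap_map f A)
  rw [h0, zero_dvd_iff] at h1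
  exact h h1

/-- commensurable virtually polycyclic factors -/
theorem rule_poly (hC : ClosedE C) (hM : ∀ (G : Type) [Group G], derivedSeries G 2 = ⊥ → C G)
    (hGL : ∀ m : ℕ, C (Matrix.GeneralLinearGroup (Fin m) ℚ))
    (hT : T.IsTree) (hact : ∀ (g : G) (u v : V), T.Adj u v → T.Adj (g • u) (g • v))
    (hR : Fm T R) (hR' : Fm T R') (hle : ∀ v, R' v ≤ R v)
    (hfin : ∀ v u, T.Adj v u →
      ((R v ⊓ MulAction.stabilizer G u) ⊔ R' v).relIndex (R v) ≠ 0)
    (hvp : ∀ v, QH VPC (R v) (R' v))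
    (N N' : Subgroup G) [N.Normal] [N'.Normal] (hN : N = ⨆ v, R v) (hN' : N' = ⨆ v, R' v)
    (hQ : C (G ⧸ N)) : C (G ⧸ N') := by
  have h : N' ≤ N := by
    rw [hN, hN']
    exact iSup_mono hle
  have hLn := Lb_normal N N'
  obtain ⟨S, _, T', p, hS⟩ := qtree hT hact N' (hR'.gen hT hact N' hN')
  obtain ⟨o⟩ := hS.tree.connected.nonempty
  obtain ⟨P, _, f, hf, hk, A, hA, hAs, hAm, hAt⟩ := hvp (p o)
  obtain ⟨j, hj, hj'⟩ := Lb_iso hT hact hR hR' hN hN' h hS o f hf hk
  let e := A.equivMapOfInjective j hj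
  refine poly_L hC hM hGL hS.tree hS.act (Lb N N') (Lb_quot hC N N' h hQ hLn) ?_ o (A.map j) ?_ ?_
    ?_ ?_ ?_
  · intro s t hst
    have hst' : T.Adj (p t) (p s) := (hS.adj s t hst).symm
    have himg : ∀ s : S, Sb (Lb N N') s = (R (p s)).map (QuotientGroup.mk' N') := by
      intro s
      ext q
      constructor
      · intro hq
        obtain ⟨x, hx, hxq⟩ := Lb_stab hT hact hR hN h hS hq.2 hq.1
        exact ⟨x, hx, hxq⟩
      · rintro ⟨x, hx, rfl⟩
        exact Lb_stab' hR hN hS hx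
    have h1 : ((R (p t) ⊓ MulAction.stabilizer G (p s)) ⊔ R' (p t)).map (QuotientGroup.mk' N') ≤
        Sb (Lb N N') s := by
      rw [himg, Subgroup.map_le_iff_le_comap]
      refine sup_le ?_ ?_
      · rintro x ⟨hx, hxs⟩
        exact ⟨x, hR.comp _ _ hst' x hx hxs, rfl⟩
      · intro x hx
        refine ⟨1, one_mem _, ?_⟩
        rw [map_one]
        symm
        refine (QuotientGroup.eq_one_iff x).2 ?_
        rw [hN']
        exact le_iSup R' (p t) hx
    have h2 := relIndex_map (QuotientGroup.mk' N') (hfin _ _ hst')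
    rw [← himg t] at h2
    intro h0
    have h3 := Subgroup.relIndex_dvd_of_le_left (Sb (Lb N N') t) h1
    rw [h0, zero_dvd_iff] at h3
    exact h2 h3
  · rw [← hj']
    rintro _ ⟨x, _, rfl⟩
    exact ⟨x, rfl⟩
  · rw [← hj', MonoidHom.range_eq_map, Subgroup.relIndex_map_map_of_injective _ _ hj,
      Subgroup.relIndex_top_right]
    exact hA.index_ne_zero
  · exact Group.isSolvable_of_surjective (f := e.toMonoidHom) e.surjective
  · intro H
    have h1 := hAm (H.comap e.toMonoidHom)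
    have h2 : (H.comap e.toMonoidHom).map e.toMonoidHom = H :=
      Subgroup.map_comap_eq_self_of_surjective e.surjective H
    rw [← h2]
    obtain ⟨F, hF⟩ := h1
    classical
    refine ⟨F.image e.toMonoidHom, ?_⟩
    rw [Finset.coe_image, ← MonoidHom.map_closure, hF]
  · intro x n hn hx
    obtain ⟨y, rfl⟩ := e.surjective x
    have h1 : y = 1 := hAt y n hn (by
      apply e.injective
      rw [map_pow, hx, map_one])
    rw [h1, map_one]

end

end Pool.Agent.U643.TR
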