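import Pool.Agent.U643.TR.Sy

/-!
# One step of the series
-/

set_option autoImplicit false

namespace Pool.Agent.U643.TR

open SimpleGraph
open Pool.Agent.Y110.FJ
open Pool.Agent.N509.TK (Sb mem_Sb Sb_le Sb_conj Sb_normal EE)

variable {C : ∀ (G : Type) [Group G], Prop}

section

variable {G V : Type} {T : SimpleGraph V} [Group G] [MulAction G V]

/-- an equivariant family of subgroups which is compatible along the edges -/
structure Cf (T : SimpleGraph V) (L : Subgroup G) (R : V → Subgroup G) : Prop where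
  eqv : ∀ (g : G) (v : V) (x : G), x ∈ R v → g * x * g⁻¹ ∈ R (g • v)
  comp : ∀ u v : V, T.Adj u v → ∀ x ∈ L, x • u = u → x • v = v → x ∈ R u → x ∈ R v

variable {L : Subgroup G} {R : V → Subgroup G}

theorem Cf.mono (h : Cf T L R) {L' : Subgroup G} (hL : L' ≤ L) : Cf T L' R :=
  ⟨h.eqv, fun u v huv x hx => h.comp u v huv x (hL hx)⟩

theorem Sb_back [L.Normal] {g x : G} {v : V} (hx : x ∈ Sb L (g • v)) : g⁻¹ * x * g ∈ Sb L v := by
  have h1 := Sb_conj L g⁻¹ (g • v) hx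
  rwa [inv_inv, inv_smul_smul] at h1

theorem Cf.back (h : Cf T L R) {g x : G} {v : V} (hx : x ∈ R (g • v)) : g⁻¹ * x * g ∈ R v := by
  have h1 := h.eqv g⁻¹ (g • v) x hx
  rwa [inv_inv, inv_smul_smul] at h1

theorem phom_conj [L.Normal] {W : Type} [Group W] {f : G → W} {v : V} (g : G)
    (hf : PH (Sb L v) f) : PH (Sb L (g • v)) (fun x => f (g⁻¹ * x * g)) := by
  intro x hx y hy
  show f (g⁻¹ * (x * y) * g) = f (g⁻¹ * x * g) * f (g⁻¹ * y * g)
  rw [← hf _ (Sb_back hx) _ (Sb_back hy)]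
  congr 1
  group

/-- abelian factors -/
theorem isys_ab [L.Normal] (h : Cf T L R)
    (hR : ∀ v, ∀ x ∈ Sb L v, ∀ y ∈ Sb L v, x * y * x⁻¹ * y⁻¹ ∈ R v) :
    ISys (W := EE) T L (fun v f => PH (Sb L v) f ∧ ∀ x ∈ Sb L v, x ∈ R v → f x = 1) where
  hom v f hf := hf.1
  ext v u hvu f hf := by
    obtain ⟨f', h1, h2, h3⟩ := ext_ab (Sb L v) (Sb L u) (R v) (hR v) f hf.1 (by
      intro x hx hxu hxR
      exact hf.2 x hxu (h.comp v u hvu x hx.2 hx.1 hxu.1 hxR))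
    exact ⟨f', ⟨h1, h2⟩, h3⟩
  eqv g v f hf := by
    refine ⟨phom_conj g hf.1, fun x hx hxR => ?_⟩
    exact hf.2 _ (Sb_back hx) (h.back hxR)
  inn w v f hf := by
    have h1 : (fun x => w * f x * w⁻¹) = f := by
      funext x
      rw [mul_comm w, mul_inv_cancel_right]
    rw [h1]
    exact hf
  con v f f' hf hff' := by
    refine ⟨?_, ?_⟩
    · intro x hx y hy
      rw [hff' x hx, hff' y hy, hff' _ (mul_mem hx hy)]
      exact hf.1 x hx y hy
    · intro x hx hxR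
      rw [hff' x hx]
      exact hf.2 x hx hxR

theorem Cf.normal [L.Normal] (h : Cf T L R) (v : V) : ((R v).subgroupOf (Sb L v)).Normal := by
  refine ⟨fun n hn g => ?_⟩
  rw [Subgroup.mem_subgroupOf] at hn ⊢
  have h1 := h.eqv (g : G) v n hn
  have h2 : (g : G) • v = v := g.2.1
  rw [h2] at h1
  exact h1

/-- finite factors -/
theorem isys_fin [L.Normal] (h : Cf T L R) (N : ℕ)
    (hi : ∀ v, (R v).relIndex (Sb L v) ≠ 0) (hN : ∀ v, (R v).relIndex (Sb L v) ∣ N) :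
    ISys (W := Equiv.Perm (Fin N)) T L (fun v f => Fr (Sb L v) (R v) f) where
  hom v f hf := hf.1
  ext v u hvu f hf := by
    obtain ⟨f1, hf1⟩ := Fr.exists (Sb L v) (R v) (h.normal v) N (hi v) (hN v)
    have h1 : Fr (Sb L v ⊓ Sb L u) (R v) f1 := hf1.mono inf_le_left
    have h2 : Fr (Sb L v ⊓ Sb L u) (R v) f := by
      refine ⟨hf.1.mono inf_le_right, ?_, ?_⟩
      · intro x hx hxR
        exact hf.2.1 x hx.2 (h.comp v u hvu x hx.1.2 hx.1.1 hx.2.1 hxR)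
      · intro x hx i hxi
        exact h.comp u v hvu.symm x hx.1.2 hx.2.1 hx.1.1 (hf.2.2 x hx.2 i hxi)
    have hn : ((R v).subgroupOf (Sb L v ⊓ Sb L u)).Normal := by
      refine ⟨fun n hn g => ?_⟩
      rw [Subgroup.mem_subgroupOf] at hn ⊢
      have h3 := h.eqv (g : G) v n hn
      have h4 : (g : G) • v = v := g.2.1.1
      rw [h4] at h3
      exact h3
    obtain ⟨σ, hσ⟩ := h1.exists_conj h2 hn
    refine ⟨fun x => σ * f1 x * σ⁻¹, hf1.conj σ, ?_⟩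
    intro x hx hxu
    exact (hσ x ⟨hx, hxu⟩).symm
  eqv g v f hf := by
    refine ⟨phom_conj g hf.1, fun x hx hxR => ?_, fun x hx i hxi => ?_⟩
    · exact hf.2.1 _ (Sb_back hx) (h.back hxR)
    · have h1 := h.eqv g v _ (hf.2.2 _ (Sb_back hx) i hxi)
      have h2 : g * (g⁻¹ * x * g) * g⁻¹ = x := by group
      rwa [h2] at h1
  inn w v f hf := hf.conj w
  con v f f' hf hff' := by
    refine ⟨?_, ?_, ?_⟩
    · intro x hx y hy
      rw [hff' x hx, hff' y hy, hff' _ (mul_mem hx hy)]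
      exact hf.1 x hx y hy
    · intro x hx hxR
      rw [hff' x hx]
      exact hf.2.1 x hx hxR
    · intro x hx i hxi
      rw [hff' x hx] at hxi
      exact hf.2.2 x hx i hxi

/-- **abelian step** -/
theorem step_ab (hC : ClosedE C) (hM : ∀ (G : Type) [Group G], derivedSeries G 2 = ⊥ → C G)
    (hT : T.IsTree) (hact : ∀ (g : G) (u v : V), T.Adj u v → T.Adj (g • u) (g • v))
    [L.Normal] (hQ : C (G ⧸ L)) (h : Cf T L R)
    (hR : ∀ v, ∀ x ∈ Sb L v, ∀ y ∈ Sb L v, x * y * x⁻¹ * y⁻¹ ∈ R v) :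
    ∃ (D : Subgroup G) (_ : D.Normal), D ≤ L ∧ C (G ⧸ D) ∧ ∀ v, Sb D v ≤ R v := by
  have h𝒢 := isys_ab h hR
  obtain ⟨D, hD⟩ : ∃ D, D = DD L (fun (v : V) (f : G → EE) =>
    PH (Sb L v) f ∧ ∀ x ∈ Sb L v, x ∈ R v → f x = 1) := ⟨_, rfl⟩
  have hDn : D.Normal := by
    rw [hD]
    exact DD_normal h𝒢
  have hDL : D ≤ L := by
    rw [hD]
    exact DD_le.trans (Sb_le (V := V) L)
  refine ⟨D, hDn, hDL, ?_, ?_⟩
  · exact quot_ab hC hM h𝒢 (fun a b => mul_comm a b) hT hact hQ D hD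
  · intro v x hx
    by_contra hxR
    have hxL : x ∈ Sb L v := mem_Sb.2 ⟨hx.1, hDL hx.2⟩
    obtain ⟨f, hf1, hf2, hf3⟩ := sep_ab (Sb L v) (R v) (hR v) hxL hxR
    have hxD : x ∈ D := hx.2
    rw [hD] at hxD
    exact hf3 (Sb_DD h𝒢 hT hact hxD hx.1 f ⟨hf1, hf2⟩)

/-- **finite step** -/
theorem step_fin (hC : ClosedE C)
    (hT : T.IsTree) (hact : ∀ (g : G) (u v : V), T.Adj u v → T.Adj (g • u) (g • v))
    [L.Normal] (hQ : C (G ⧸ L)) (h : Cf T L R) (k : ℕ)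
    (hi : ∀ v, (R v).relIndex (Sb L v) ≠ 0) (hk : ∀ v, (R v).relIndex (Sb L v) ≤ k) :
    ∃ (D : Subgroup G) (_ : D.Normal), D ≤ L ∧ C (G ⧸ D) ∧ ∀ v, Sb D v ≤ R v := by
  have hN : ∀ v, (R v).relIndex (Sb L v) ∣ k.factorial := fun v =>
    Nat.dvd_factorial (Nat.pos_of_ne_zero (hi v)) (hk v)
  have h𝒢 := isys_fin h k.factorial hi hN
  obtain ⟨D, hD⟩ : ∃ D, D = DD L (fun (v : V) (f : G → Equiv.Perm (Fin k.factorial)) =>
    Fr (Sb L v) (R v) f) := ⟨_, rfl⟩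
  have hDn : D.Normal := by
    rw [hD]
    exact DD_normal h𝒢
  have hDL : D ≤ L := by
    rw [hD]
    exact DD_le.trans (Sb_le (V := V) L)
  refine ⟨D, hDn, hDL, ?_, ?_⟩
  · exact quot_fin hC h𝒢 hT hact hQ D hD
  · intro v x hx
    have hxL : x ∈ Sb L v := mem_Sb.2 ⟨hx.1, hDL hx.2⟩
    obtain ⟨f, hf⟩ := Fr.exists (Sb L v) (R v) (h.normal v) k.factorial (hi v) (hN v)
    have hxD : x ∈ D := hx.2
    rw [hD] at hxD
    have h1 := Sb_DD h𝒢 hT hact hxD hx.1 f hf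
    refine hf.2.2 x hxL ⟨0, Nat.factorial_pos k⟩ ?_
    rw [h1]
    rfl

end

end Pool.Agent.U643.TR
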