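import Pool.Agent.U643.TR.Qu

/-!
# Two systems of good homomorphisms: characters and free permutation representations
-/

set_option autoImplicit false

namespace Pool.Agent.U643.TR

open SimpleGraph
open Pool.Agent.N509.TK (Sb mem_Sb Sb_le Sb_conj Sb_normal EE ext_comm sep_comm exh exh_eq exh_phom)

/-! ### characters -/

section ab

variable {G : Type} [Group G]

/-- the abelian quotient -/
theorem ab_quot (A R : Subgroup G) (hR : ∀ x ∈ A, ∀ y ∈ A, x * y * x⁻¹ * y⁻¹ ∈ R) :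
    ∃ (Q : Type) (_ : CommGroup Q) (π : A →* Q), ∀ x : A, π x = 1 ↔ (x : G) ∈ R := by
  have hle : commutator A ≤ R.subgroupOf A := by
    rw [commutator_def, Subgroup.commutator_le]
    intro x _ y _
    rw [Subgroup.mem_subgroupOf, commutatorElement_def]
    exact hR x x.2 y y.2
  refine ⟨Abelianization A ⧸ (R.subgroupOf A).map Abelianization.of, inferInstance,
    (QuotientGroup.mk' _).comp Abelianization.of, ?_⟩
  intro x
  constructor
  · intro h
    obtain ⟨m, hm, hmx⟩ := (QuotientGroup.eq_one_iff _).1 h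
    have h1 : m⁻¹ * x ∈ commutator A := QuotientGroup.eq.1 hmx
    have h2 := mul_mem hm (hle h1)
    rw [mul_inv_cancel_left] at h2
    exact h2
  · intro h
    exact (QuotientGroup.eq_one_iff _).2 ⟨x, h, rfl⟩

theorem ext_ab (A B R : Subgroup G) (hR : ∀ x ∈ A, ∀ y ∈ A, x * y * x⁻¹ * y⁻¹ ∈ R) (f : G → EE)
    (hf : PH B f) (h1 : ∀ x ∈ A, x ∈ B → x ∈ R → f x = 1) :
    ∃ f' : G → EE, PH A f' ∧ (∀ x ∈ A, x ∈ R → f' x = 1) ∧ ∀ x ∈ A, x ∈ B → f' x = f x := by
  obtain ⟨Q, _, π, hπ⟩ := ab_quot A R hR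
  let i0 : ↥(A ⊓ B) →* Q := π.comp (Subgroup.inclusion (inf_le_left : A ⊓ B ≤ A))
  let f0 : ↥(A ⊓ B) →* EE := (hf.mono (inf_le_right : A ⊓ B ≤ B)).hom
  have hk : ∀ x ∈ i0.ker, f0 x = 1 := by
    intro x hx
    exact h1 x x.2.1 x.2.2 ((hπ _).1 hx)
  let f1 : ↥(A ⊓ B) ⧸ i0.ker →* EE := QuotientGroup.lift i0.ker f0 hk
  let e : ↥(A ⊓ B) ⧸ i0.ker ≃* i0.range := QuotientGroup.quotientKerEquivRange i0
  obtain ⟨F, hF⟩ := ext_comm (i0.range.subtype) (Subgroup.subtype_injective _)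
    (f1.comp e.symm.toMonoidHom)
  refine ⟨exh A (F.comp π), exh_phom _ _, ?_, ?_⟩
  · intro x hxA hxR
    rw [exh_eq A _ hxA]
    show F (π ⟨x, hxA⟩) = 1
    rw [(hπ ⟨x, hxA⟩).2 hxR, map_one]
  · intro x hxA hxB
    rw [exh_eq A _ hxA]
    have h2 := hF (e (QuotientGroup.mk ⟨x, hxA, hxB⟩))
    have h3 : e.symm (e (QuotientGroup.mk ⟨x, hxA, hxB⟩)) = QuotientGroup.mk ⟨x, hxA, hxB⟩ :=
      e.symm_apply_apply _
    have h4 : (f1.comp e.symm.toMonoidHom) (e (QuotientGroup.mk ⟨x, hxA, hxB⟩)) = f x := by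
      show f1 (e.symm (e (QuotientGroup.mk ⟨x, hxA, hxB⟩))) = f x
      rw [h3]
      rfl
    rw [h4] at h2
    exact h2

theorem sep_ab (A R : Subgroup G) (hR : ∀ x ∈ A, ∀ y ∈ A, x * y * x⁻¹ * y⁻¹ ∈ R) {x : G}
    (hx : x ∈ A) (h : x ∉ R) :
    ∃ f : G → EE, PH A f ∧ (∀ x ∈ A, x ∈ R → f x = 1) ∧ f x ≠ 1 := by
  obtain ⟨Q, _, π, hπ⟩ := ab_quot A R hR
  have h1 : π ⟨x, hx⟩ ≠ 1 := fun h2 => h ((hπ _).1 h2)
  obtain ⟨F, hF⟩ := sep_comm h1
  refine ⟨exh A (F.comp π), exh_phom _ _, ?_, ?_⟩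
  · intro x hxA hxR
    rw [exh_eq A _ hxA]
    show F (π ⟨x, hxA⟩) = 1
    rw [(hπ ⟨x, hxA⟩).2 hxR, map_one]
  · rw [exh_eq A _ hx]
    exact hF

end ab

/-! ### free permutation representations -/

section fr

/-- two free actions on the same finite set are conjugate -/
theorem free_conj {Q X : Type} [Group Q] [Finite X] (a b : Q →* Equiv.Perm X)
    (ha : ∀ q i, a q i = i → q = 1) (hb : ∀ q i, b q i = i → q = 1) :
    ∃ σ : Equiv.Perm X, ∀ q, b q = σ * a q * σ⁻¹ := by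
  classical
  -- coordinates
  have key : ∀ c : Q →* Equiv.Perm X, (∀ q i, c q i = i → q = 1) →
      ∃ (O : Type) (_ : Finite O) (e : O × Q ≃ X), ∀ o q q', e (o, q' * q) = c q' (e (o, q)) := by
    intro c hc
    let r : Setoid X :=
      { r := fun i j => ∃ q, c q i = j
        iseqv := by
          refine ⟨fun i => ⟨1, by simp⟩, ?_, ?_⟩
          · rintro i _ ⟨q, rfl⟩
            exact ⟨q⁻¹, by simp⟩
          · rintro i _ _ ⟨q, rfl⟩ ⟨q', rfl⟩
            exact ⟨q' * q, by simp⟩ }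
    let s : Quotient r → X := fun o => o.out
    have hs : ∀ o, Quotient.mk r (s o) = o := fun o => Quotient.out_eq o
    let F : Quotient r × Q → X := fun p => c p.2 (s p.1)
    have hF : Function.Bijective F := by
      constructor
      · rintro ⟨o, q⟩ ⟨o', q'⟩ h
        have h' : c q (s o) = c q' (s o') := h
        have h1 : o = o' := by
          rw [← hs o, ← hs o']
          refine Quotient.sound (show ∃ q, c q (s o) = s o' from ⟨q'⁻¹ * q, ?_⟩)
          rw [map_mul, Equiv.Perm.mul_apply, h', map_inv]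
          exact (c q').symm_apply_apply _
        subst h1
        have h2 : q'⁻¹ * q = 1 := by
          apply hc _ (s o)
          rw [map_mul, Equiv.Perm.mul_apply, h', map_inv]
          exact (c q').symm_apply_apply _
        have h3 : q = q' := by
          rw [inv_mul_eq_one] at h2
          exact h2.symm
        rw [h3]
      · intro i
        obtain ⟨q, hq⟩ : ∃ q, c q (s (Quotient.mk r i)) = i :=
          Quotient.exact (hs (Quotient.mk r i))
        exact ⟨(Quotient.mk r i, q), hq⟩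
    refine ⟨Quotient r, inferInstance, Equiv.ofBijective F hF, ?_⟩
    intro o q q'
    show c (q' * q) (s o) = c q' (c q (s o))
    rw [map_mul]
    rfl
  obtain ⟨O, _, e, he⟩ := key a ha
  obtain ⟨O', _, e', he'⟩ := key b hb
  rcases isEmpty_or_nonempty X with hX | ⟨⟨i⟩⟩
  · exact ⟨1, fun q => Equiv.ext fun i => (hX.false i).elim⟩
  have hQ : Finite Q := by
    refine Finite.of_injective (fun q => a q i) ?_
    intro q q' h
    have h' : a q i = a q' i := h
    have h2 : q'⁻¹ * q = 1 := by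
      apply ha _ i
      rw [map_mul, Equiv.Perm.mul_apply, h', map_inv]
      exact (a q').symm_apply_apply _
    rw [inv_mul_eq_one] at h2
    exact h2.symm
  have h1 : Nat.card O * Nat.card Q = Nat.card O' * Nat.card Q := by
    rw [← Nat.card_prod, ← Nat.card_prod, Nat.card_congr e, Nat.card_congr e']
  have h2 : Nat.card O = Nat.card O' := Nat.eq_of_mul_eq_mul_right Nat.card_pos h1
  obtain ⟨ε⟩ := Finite.card_eq.1 h2
  let σ : X ≃ X := e.symm.trans ((ε.prodCongr (Equiv.refl Q)).trans e')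
  have hσ : ∀ o q, σ (e (o, q)) = e' (ε o, q) := by
    intro o q
    show e' ((ε.prodCongr (Equiv.refl Q)) (e.symm (e (o, q)))) = _
    rw [e.symm_apply_apply]
    rfl
  refine ⟨σ, fun q => ?_⟩
  rw [eq_mul_inv_iff_mul_eq]
  apply Equiv.ext
  intro x
  obtain ⟨⟨o, q'⟩, rfl⟩ := e.surjective x
  show b q (σ (e (o, q'))) = σ (a q (e (o, q')))
  rw [hσ, ← he, hσ, ← he']

/-- free actions exist -/
theorem free_exists {Q : Type} [Group Q] [Finite Q] (N : ℕ) (hN : Nat.card Q ∣ N) :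
    ∃ a : Q →* Equiv.Perm (Fin N), ∀ q i, a q i = i → q = 1 := by
  obtain ⟨m, hm⟩ := hN
  have h1 : Nat.card (Q × Fin m) = Nat.card (Fin N) := by
    rw [Nat.card_prod, Nat.card_fin, Nat.card_fin, hm]
  obtain ⟨e⟩ := Finite.card_eq.1 h1
  refine ⟨MonoidHom.mk' (fun q => e.symm.trans (((Equiv.mulLeft q).prodCongr
    (Equiv.refl (Fin m))).trans e)) ?_, ?_⟩
  · intro q q'
    apply Equiv.ext
    intro x
    obtain ⟨⟨y, j⟩, rfl⟩ := e.surjective x
    show e (((Equiv.mulLeft (q * q')).prodCongr (Equiv.refl (Fin m))) (e.symm (e (y, j)))) =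
      e (((Equiv.mulLeft q).prodCongr (Equiv.refl (Fin m))) (e.symm
        (e (((Equiv.mulLeft q').prodCongr (Equiv.refl (Fin m))) (e.symm (e (y, j)))))))
    rw [e.symm_apply_apply, e.symm_apply_apply]
    show e (q * q' * y, j) = e (q * (q' * y), j)
    rw [mul_assoc]
  · intro q x h
    obtain ⟨⟨y, j⟩, rfl⟩ := e.surjective x
    have h2 : e (((Equiv.mulLeft q).prodCongr (Equiv.refl (Fin m))) (e.symm (e (y, j)))) =
      e (y, j) := h
    rw [e.symm_apply_apply] at h2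
    have h3 : (q * y, j) = (y, j) := e.injective h2
    exact mul_eq_right.1 (congrArg Prod.fst h3)

variable {G : Type} [Group G]

/-- `f` is a homomorphism on `A` with kernel `R`, and the other elements of `A` have no fixed points -/
def Fr {N : ℕ} (A R : Subgroup G) (f : G → Equiv.Perm (Fin N)) : Prop :=
  PH A f ∧ (∀ x ∈ A, x ∈ R → f x = 1) ∧ ∀ x ∈ A, ∀ i, f x i = i → x ∈ R

theorem Fr.mono {N : ℕ} {A B R : Subgroup G} {f : G → Equiv.Perm (Fin N)} (h : Fr A R f)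
    (hB : B ≤ A) : Fr B R f :=
  ⟨h.1.mono hB, fun x hx => h.2.1 x (hB hx), fun x hx => h.2.2 x (hB hx)⟩

theorem Fr.conj {N : ℕ} {A R : Subgroup G} {f : G → Equiv.Perm (Fin N)} (h : Fr A R f)
    (w : Equiv.Perm (Fin N)) : Fr A R (fun x => w * f x * w⁻¹) := by
  refine ⟨?_, ?_, ?_⟩
  · intro x hx y hy
    show w * f (x * y) * w⁻¹ = w * f x * w⁻¹ * (w * f y * w⁻¹)
    rw [h.1 x hx y hy]
    group
  · intro x hx hxR
    show w * f x * w⁻¹ = 1
    rw [h.2.1 x hx hxR]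
    group
  · intro x hx i hi
    have h1 : w (f x (w⁻¹ i)) = i := hi
    refine h.2.2 x hx (w⁻¹ i) ?_
    have h2 := congrArg (w⁻¹ : Equiv.Perm (Fin N)) h1
    rwa [show (w⁻¹ : Equiv.Perm (Fin N)) (w (f x (w⁻¹ i))) = f x (w⁻¹ i) from
      w.symm_apply_apply _] at h2

/-- the quotient representation -/
theorem Fr.quot {N : ℕ} {A R : Subgroup G} {f : G → Equiv.Perm (Fin N)} (h : Fr A R f)
    [(R.subgroupOf A).Normal] : ∃ a : A ⧸ R.subgroupOf A →* Equiv.Perm (Fin N),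
      (∀ x : A, a (QuotientGroup.mk x) = f x) ∧ ∀ q i, a q i = i → q = 1 := by
  refine ⟨QuotientGroup.lift _ h.1.hom fun x hx => h.2.1 x x.2 hx, fun x => rfl, ?_⟩
  intro q i hq
  obtain ⟨x, rfl⟩ := QuotientGroup.mk_surjective q
  exact (QuotientGroup.eq_one_iff _).2 (h.2.2 x x.2 i hq)

theorem Fr.exists_conj {N : ℕ} {A R : Subgroup G} {f f' : G → Equiv.Perm (Fin N)} (h : Fr A R f)
    (h' : Fr A R f') (hn : (R.subgroupOf A).Normal) :
    ∃ σ : Equiv.Perm (Fin N), ∀ x ∈ A, f' x = σ * f x * σ⁻¹ := by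
  obtain ⟨a, ha, ha'⟩ := h.quot
  obtain ⟨b, hb, hb'⟩ := h'.quot
  obtain ⟨σ, hσ⟩ := free_conj a b ha' hb'
  refine ⟨σ, fun x hx => ?_⟩
  have h1 := hσ (QuotientGroup.mk ⟨x, hx⟩)
  rwa [ha, hb] at h1

open Classical in
theorem Fr.exists (A R : Subgroup G) (hn : (R.subgroupOf A).Normal) (N : ℕ)
    (hi : R.relIndex A ≠ 0) (hN : R.relIndex A ∣ N) : ∃ f : G → Equiv.Perm (Fin N), Fr A R f := by
  have hfi : (R.subgroupOf A).FiniteIndex := ⟨hi⟩
  obtain ⟨a, ha⟩ := free_exists (Q := A ⧸ R.subgroupOf A) N hN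
  refine ⟨fun x => if h : x ∈ A then a (QuotientGroup.mk ⟨x, h⟩) else 1, ?_, ?_, ?_⟩
  · intro x hx y hy
    show (if h : x * y ∈ A then a (QuotientGroup.mk ⟨x * y, h⟩) else 1) = _
    rw [dif_pos (mul_mem hx hy)]
    show _ = (if h : x ∈ A then a (QuotientGroup.mk ⟨x, h⟩) else 1) *
      (if h : y ∈ A then a (QuotientGroup.mk ⟨y, h⟩) else 1)
    rw [dif_pos hx, dif_pos hy, ← map_mul]
    rfl
  · intro x hx hxR
    show (if h : x ∈ A then a (QuotientGroup.mk ⟨x, h⟩) else 1) = 1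
    rw [dif_pos hx, (QuotientGroup.eq_one_iff (⟨x, hx⟩ : A)).2 hxR, map_one]
  · intro x hx i hi
    have h1 : (if h : x ∈ A then a (QuotientGroup.mk ⟨x, h⟩) else 1) i = i := hi
    rw [dif_pos hx] at h1
    exact (QuotientGroup.eq_one_iff (⟨x, hx⟩ : A)).1 (ha _ i h1)

end fr

end Pool.Agent.U643.TR
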